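import Pool.Agent.Rand.BasicTests

open MeasureTheory
open scoped ENNReal NNReal

namespace Pool.Agent.Rand

/-- existential quantification over a computable list -/
theorem computable_any {α β : Type*} [Primcodable α] [Primcodable β] {f : α → List β}
    {p : α → β → Bool} (hf : Computable f) (hp : Computable₂ p) :
    Computable (fun a => (f a).any (p a)) := by
  have h : Computable (fun a => !((f a).all (fun b => !(p a b)))) :=
    comp_not (computable_all hf (comp_not hp))
  refine h.of_eq ?_
  intro a
  rw [List.all_eq_not_any_not, Bool.not_not]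
  simp

section

variable (w : ℕ → ℕ × List Bool → Bool)

/-- at stage `s` some initial segment of `x` is seen in the `n`-th open set -/
def hit (s n : ℕ) (x : List Bool) : Bool :=
  (List.range (x.length + 1)).any (fun k => w s (n, x.take k))

/-- number of open sets hit at stage `s` -/
def cnt (s : ℕ) (x : List Bool) : ℕ :=
  (List.range s).foldl (fun acc n => acc + (bif hit w s n x then 1 else 0)) 0

lemma computable_cnt (hw : Computable₂ w) : Computable₂ (cnt w) := by
  unfold cnt
  refine computable_foldl (f := fun a : ℕ × List Bool => List.range a.1) (g := fun _ => 0)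
    (h := fun a acc n => acc + (bif hit w a.1 n a.2 then 1 else 0)) ?_ (Computable.const 0) ?_
  · exact Primrec.list_range.to_comp.comp Computable.fst
  · refine comp_add (Computable.fst.comp Computable.snd)
      (Computable.cond ?_ (Computable.const 1) (Computable.const 0))
    unfold hit
    refine computable_any (f := fun a : (ℕ × List Bool) × ℕ × ℕ => List.range (a.1.2.length + 1))
      (p := fun a k => w a.1.1 (a.2.2, a.1.2.take k)) ?_ ?_
    · exact Primrec.list_range.to_comp.comp
        (comp_succ (Computable.list_length.comp (Computable.snd.comp Computable.fst)))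
    · -- b : ((ℕ × List Bool) × ℕ × ℕ) × ℕ
      have h1 : Computable (fun b : ((ℕ × List Bool) × ℕ × ℕ) × ℕ => b.1.1.1) :=
        Computable.fst.comp (Computable.fst.comp Computable.fst)
      have h2 : Computable (fun b : ((ℕ × List Bool) × ℕ × ℕ) × ℕ => b.1.2.2) :=
        Computable.snd.comp (Computable.snd.comp Computable.fst)
      have h3 : Computable (fun b : ((ℕ × List Bool) × ℕ × ℕ) × ℕ => b.1.1.2) :=
        Computable.snd.comp (Computable.fst.comp Computable.fst)
      exact hw.comp h1 (h2.pair (comp_take Computable.snd h3))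

lemma cnt_eq_sum (s : ℕ) (x : List Bool) :
    cnt w s x = ∑ n ∈ Finset.range s, (bif hit w s n x then 1 else 0) := by
  unfold cnt
  have : ∀ (m : ℕ), (List.range m).foldl (fun acc n => acc + (bif hit w s n x then 1 else 0)) 0
      = ∑ n ∈ Finset.range m, (bif hit w s n x then 1 else 0) := by
    intro m
    induction m with
    | zero => simp
    | succ m ih =>
      rw [List.range_succ, List.foldl_append, ih, Finset.sum_range_succ]
      simp
  exact this s

variable {w}

lemma hit_initSeg (s n : ℕ) (ω : Cantor) :
    hit w s n (initSeg ω s) = true ↔ ∃ k ≤ s, w s (n, initSeg ω k) = true := by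
  unfold hit
  rw [List.any_eq_true]
  simp only [List.mem_range, length_initSeg]
  constructor
  · rintro ⟨k, hk, h⟩
    refine ⟨k, by omega, ?_⟩
    rwa [take_initSeg ω (by omega)] at h
  · rintro ⟨k, hk, h⟩
    refine ⟨k, by omega, ?_⟩
    rwa [take_initSeg ω hk]

end

/-- every Martin-Löf test is dominated by an expectation-bounded test -/
theorem exists_expectationTest_of_MLTest (U : ℕ → Set Cantor) (hU : IsMartinLofTest U) :
    ∃ f, IsExpectationTest f ∧ ∀ ω, (∀ n, ω ∈ U n) → f ω = ∞ := by
  obtain ⟨⟨W, hW, hUW⟩, hUm⟩ := hU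
  obtain ⟨w, hw1, hw2, hw3⟩ := exists_stage hW
  have hw2' : ∀ s t a, s ≤ t → w s a = true → w t a = true := by
    intro s t a hst h
    induction t, hst using Nat.le_induction with
    | base => exact h
    | succ t _ ih => exact hw2 t a ih
  have hitmono : ∀ s n ω, hit w s n (initSeg ω s) = true →
      hit w (s + 1) n (initSeg ω (s + 1)) = true := by
    intro s n ω h
    rw [hit_initSeg] at h ⊢
    obtain ⟨k, hk, h⟩ := h
    exact ⟨k, by omega, hw2 s _ h⟩
  refine ⟨fun ω => ⨆ s, (cnt w s (initSeg ω s) : ℝ≥0∞), ⟨?_, ?_⟩, ?_⟩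
  · refine lowerSemicomputable_of_nat (cnt w) (computable_cnt w hw1) ?_ (fun ω => rfl)
    intro ω s
    rw [cnt_eq_sum, cnt_eq_sum, Finset.sum_range_succ]
    refine le_trans ?_ (Nat.le_add_right _ _)
    refine Finset.sum_le_sum (fun n _ => ?_)
    cases h : hit w s n (initSeg ω s)
    · simp
    · rw [hitmono s n ω h]
  · have hopen : ∀ n, MeasurableSet (U n) := by
      intro n
      rw [hUW n]
      have : {ω : Cantor | ∃ k, W (n, initSeg ω k)} = ⋃ k, {ω : Cantor | W (n, initSeg ω k)} := by
        ext ω; simp
      rw [this]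
      exact MeasurableSet.iUnion (fun k => measurableSet_initSeg (fun x => W (n, x)) k)
    have h1 : ∀ ω, (⨆ s, (cnt w s (initSeg ω s) : ℝ≥0∞)) ≤
        ∑' n, (U n).indicator (fun _ => (1 : ℝ≥0∞)) ω := by
      intro ω
      refine iSup_le (fun s => ?_)
      rw [cnt_eq_sum]
      push_cast
      refine le_trans ?_ (ENNReal.sum_le_tsum (Finset.range s))
      refine Finset.sum_le_sum (fun n _ => ?_)
      cases h : hit w s n (initSeg ω s)
      · simp
      · rw [hit_initSeg] at h
        obtain ⟨k, _, hk⟩ := h
        have hmem : ω ∈ U n := by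
          rw [hUW n]
          exact ⟨k, (hw3 _).2 ⟨s, hk⟩⟩
        rw [Set.indicator_of_mem hmem]
        simp
    refine lt_of_le_of_lt (lintegral_mono h1) ?_
    rw [lintegral_tsum (fun n => (measurable_const.indicator (hopen n)).aemeasurable)]
    have h2 : ∀ n, ∫⁻ ω, (U n).indicator (fun _ => (1 : ℝ≥0∞)) ω ∂unif ≤ (1 / 2) ^ n := by
      intro n
      rw [lintegral_indicator_const (hopen n), one_mul]
      exact hUm n
    refine lt_of_le_of_lt (ENNReal.tsum_le_tsum h2) ?_
    rw [ENNReal.tsum_geometric, ENNReal.inv_lt_top]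
    simp
  · intro ω hω
    simp only
    rw [iSup_eq_top]
    intro b hb
    obtain ⟨N, hN⟩ := ENNReal.exists_nat_gt hb.ne
    have h1 : ∀ m, ∃ s, m ≤ s ∧ ∀ n < m, hit w s n (initSeg ω s) = true := by
      intro m
      induction m with
      | zero => exact ⟨0, le_rfl, fun n hn => by omega⟩
      | succ m ih =>
        obtain ⟨s, hs1, hs2⟩ := ih
        have h2 := hω m
        rw [hUW m] at h2
        obtain ⟨k, hk⟩ := h2
        obtain ⟨t, ht⟩ := (hw3 _).1 hk
        refine ⟨max (max s t) (max k (m + 1)), by omega, ?_⟩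
        intro n hn
        rw [hit_initSeg]
        rcases Nat.lt_succ_iff_lt_or_eq.1 hn with h | h
        · have h3 := hs2 n h
          rw [hit_initSeg] at h3
          obtain ⟨k', hk', h3⟩ := h3
          exact ⟨k', by omega, hw2' _ _ _ (by omega) h3⟩
        · subst h
          exact ⟨k, by omega, hw2' _ _ _ (by omega) ht⟩
    obtain ⟨s, hs1, hs2⟩ := h1 N
    refine ⟨s, lt_of_lt_of_le hN ?_⟩
    have h3 : N ≤ cnt w s (initSeg ω s) := by
      rw [cnt_eq_sum]
      calc N = ∑ n ∈ Finset.range N, 1 := by simp
        _ = ∑ n ∈ Finset.range N, (bif hit w s n (initSeg ω s) then 1 else 0) := by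
          refine Finset.sum_congr rfl (fun n hn => ?_)
          rw [hs2 n (Finset.mem_range.1 hn)]
          rfl
        _ ≤ _ := Finset.sum_le_sum_of_subset (Finset.range_mono hs1)
    exact_mod_cast h3

/-- finiteness of a universal expectation-bounded test implies Martin-Löf randomness -/
theorem random_of_finite {t : Cantor → ℝ≥0∞} (ht : IsUniversal IsExpectationTest t) {ω : Cantor}
    (hω : t ω ≠ ∞) : MartinLofRandom ω := by
  intro U hU
  by_contra hcon
  push Not at hcon
  obtain ⟨f, hf, hf2⟩ := exists_expectationTest_of_MLTest U hU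
  obtain ⟨C, hC⟩ := ht.2 f hf
  have h1 := hC ω
  rw [hf2 ω hcon, top_le_iff] at h1
  exact ENNReal.mul_ne_top ENNReal.coe_ne_top hω h1

end Pool.Agent.Rand
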