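import Pool.Agent.Rand.Game

open MeasureTheory
open scoped ENNReal NNReal

namespace Pool.Agent.Rand

/-- `t` is the supremum of the nondecreasing approximations given by `num`, `den` -/
structure Approx (num den : ℕ → List Bool → ℕ) (t : Cantor → ℝ≥0∞) : Prop where
  mono : ∀ ω, Monotone (apx num den ω)
  sup : ∀ ω, t ω = ⨆ s, apx num den ω s

lemma Approx.le {num den : ℕ → List Bool → ℕ} {t : Cantor → ℝ≥0∞} (h : Approx num den t)
    (ω : Cantor) (s : ℕ) : apx num den ω s ≤ t ω := by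
  rw [h.sup]; exact le_iSup (fun s => apx num den ω s) s

lemma Approx.lt_of_above {num den : ℕ → List Bool → ℕ} {t : Cantor → ℝ≥0∞}
    (h : Approx num den t) {s : ℕ} {y : List Bool} {v : ℕ} (ha : above num den s y v = true) :
    ∀ ω ∈ cyl y, (v : ℝ≥0∞) < t ω := fun ω hω =>
  ((above_iff.1 ha).2 ω hω).trans_le (h.le ω s)

lemma Approx.measurable {num den : ℕ → List Bool → ℕ} {t : Cantor → ℝ≥0∞}
    (h : Approx num den t) : Measurable t := by
  have : t = fun ω => ⨆ s, apx num den ω s := funext h.sup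
  rw [this]
  refine Measurable.iSup (fun s => ?_)
  exact measurable_comp_initSeg (fun x => (num s x : ℝ≥0∞) / ((den s x : ℝ≥0∞) + 1)) s

/-- compactness: if we never see `t > v` on the cylinder, then `t ≤ v` somewhere on it -/
lemma Approx.exists_le {num den : ℕ → List Bool → ℕ} {t : Cantor → ℝ≥0∞}
    (h : Approx num den t) {s₀ : ℕ} {y : List Bool} {v : ℕ}
    (ha : ∀ s, s₀ ≤ s → above num den s y v = false) : ∃ ω ∈ cyl y, t ω ≤ v := by
  let S : ℕ → Set Cantor := fun s => {ω | ω ∈ cyl y ∧ apx num den ω (s₀ + y.length + s) ≤ v}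
  have hne : ∀ s, (S s).Nonempty := by
    intro s
    have h1 := ha (s₀ + y.length + s) (by omega)
    have h2 : ¬ (above num den (s₀ + y.length + s) y v = true) := by rw [h1]; simp
    rw [above_iff] at h2
    push Not at h2
    obtain ⟨ω, hω1, hω2⟩ := h2 (by omega)
    exact ⟨ω, hω1, hω2⟩
  have hanti : ∀ s, S (s + 1) ⊆ S s := by
    intro s ω hω
    exact ⟨hω.1, (h.mono ω (by omega)).trans hω.2⟩
  have hcl : ∀ s, IsClosed (S s) := by
    intro s
    refine (isClosed_cyl y).inter ?_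
    exact isClosed_initSeg (fun x => (num (s₀ + y.length + s) x : ℝ≥0∞) /
      ((den (s₀ + y.length + s) x : ℝ≥0∞) + 1) ≤ v) (s₀ + y.length + s)
  obtain ⟨ω, hω⟩ := exists_of_forall_stage S hne hanti hcl
  refine ⟨ω, (hω 0).1, ?_⟩
  rw [h.sup]
  refine iSup_le (fun s => ?_)
  exact (h.mono ω (by omega)).trans (hω s).2

/-! ### Monotonicity of the game -/

section

variable (nE dE nP dP : ℕ → List Bool → ℕ)

lemma stateG_succ (c s : ℕ) :
    (stateG nE dE nP dP c (s + 1) = ((stateG nE dE nP dP c s).1 + 1, 0) ∧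
      above nE dE s (cmp c (stateG nE dE nP dP c s).1)
        (2 ^ ((stateG nE dE nP dP c s).1 + (stateG nE dE nP dP c s).2)) = true) ∨
    (stateG nE dE nP dP c (s + 1) =
        ((stateG nE dE nP dP c s).1, (stateG nE dE nP dP c s).2 + 1) ∧
      above nP dP s (tgt c (stateG nE dE nP dP c s).1 (stateG nE dE nP dP c s).2)
        (2 ^ (kk c + (stateG nE dE nP dP c s).1 - c)) = true) ∨
    (stateG nE dE nP dP c (s + 1) = stateG nE dE nP dP c s ∧
      above nE dE s (cmp c (stateG nE dE nP dP c s).1)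
        (2 ^ ((stateG nE dE nP dP c s).1 + (stateG nE dE nP dP c s).2)) = false ∧
      above nP dP s (tgt c (stateG nE dE nP dP c s).1 (stateG nE dE nP dP c s).2)
        (2 ^ (kk c + (stateG nE dE nP dP c s).1 - c)) = false) := by
  show (stepG nE dE nP dP c s (stateG nE dE nP dP c s) = _ ∧ _) ∨
    (stepG nE dE nP dP c s (stateG nE dE nP dP c s) = _ ∧ _) ∨
    (stepG nE dE nP dP c s (stateG nE dE nP dP c s) = _ ∧ _)
  unfold stepG
  cases h1 : above nE dE s (cmp c (stateG nE dE nP dP c s).1)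
      (2 ^ ((stateG nE dE nP dP c s).1 + (stateG nE dE nP dP c s).2))
  · cases h2 : above nP dP s (tgt c (stateG nE dE nP dP c s).1 (stateG nE dE nP dP c s).2)
        (2 ^ (kk c + (stateG nE dE nP dP c s).1 - c))
    · right; right; exact ⟨rfl, rfl, rfl⟩
    · right; left; exact ⟨rfl, rfl⟩
  · left; exact ⟨rfl, rfl⟩

lemma lex_mono (c : ℕ) {s t : ℕ} (hst : s ≤ t) :
    (stateG nE dE nP dP c s).1 < (stateG nE dE nP dP c t).1 ∨
    ((stateG nE dE nP dP c s).1 = (stateG nE dE nP dP c t).1 ∧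
      (stateG nE dE nP dP c s).2 ≤ (stateG nE dE nP dP c t).2) := by
  induction t, hst using Nat.le_induction with
  | base => right; exact ⟨rfl, le_rfl⟩
  | succ t _ ih =>
    rcases stateG_succ nE dE nP dP c t with ⟨h, _⟩ | ⟨h, _⟩ | ⟨h, _⟩
    · rw [h]; left; simp only; omega
    · rw [h]; simp only; omega
    · rw [h]; exact ih

lemma round_mono (c : ℕ) {s t : ℕ} (hst : s ≤ t) :
    (stateG nE dE nP dP c s).1 ≤ (stateG nE dE nP dP c t).1 := by
  rcases lex_mono nE dE nP dP c hst with h | h <;> omega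

/-- every abandoned round was lost at some moment -/
lemma exists_lost (c s : ℕ) : ∀ r < (stateG nE dE nP dP c s).1, ∃ s' < s,
    (stateG nE dE nP dP c s').1 = r ∧ (stateG nE dE nP dP c (s' + 1)).1 = r + 1 ∧
    above nE dE s' (cmp c r) (2 ^ (r + (stateG nE dE nP dP c s').2)) = true := by
  induction s with
  | zero => intro r hr; simp [stateG] at hr
  | succ s ih =>
    intro r hr
    by_cases h : r < (stateG nE dE nP dP c s).1
    · obtain ⟨s', h1, h2⟩ := ih r h
      exact ⟨s', by omega, h2⟩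
    · rcases stateG_succ nE dE nP dP c s with ⟨h1, h2⟩ | ⟨h1, _⟩ | ⟨h1, _⟩
      · rw [h1] at hr
        simp only at hr
        have hr' : (stateG nE dE nP dP c s).1 = r := by omega
        refine ⟨s, by omega, hr', ?_, ?_⟩
        · rw [h1, hr']
        · rw [hr'] at h2; exact h2
      · rw [h1] at hr; exact absurd hr h
      · rw [h1] at hr; exact absurd hr h

end

section

variable {nE dE nP dP : ℕ → List Bool → ℕ} {tE tP : Cantor → ℝ≥0∞}

/-- every smaller index in the current round was covered -/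
lemma covered (hP : Approx nP dP tP) (c s : ℕ) : ∀ j < (stateG nE dE nP dP c s).2,
    ∀ ω ∈ cyl (tgt c (stateG nE dE nP dP c s).1 j),
      ((2 ^ (kk c + (stateG nE dE nP dP c s).1 - c) : ℕ) : ℝ≥0∞) < tP ω := by
  induction s with
  | zero => intro j hj; simp [stateG] at hj
  | succ s ih =>
    rcases stateG_succ nE dE nP dP c s with ⟨h1, h2⟩ | ⟨h1, h2⟩ | ⟨h1, _⟩
    · rw [h1]; intro j hj; simp at hj
    · rw [h1]
      simp only
      intro j hj
      rcases Nat.lt_succ_iff_lt_or_eq.1 hj with h | h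
      · exact ih j h
      · subst h
        exact hP.lt_of_above h2
    · rw [h1]; exact ih

/-- the number of covered strings in a round is bounded -/
lemma index_le (hP : Approx nP dP tP)
    (hPb : ∀ c : ℝ≥0, 0 < c → unif {ω : Cantor | (c : ℝ≥0∞) ≤ tP ω} ≤ 1 / (c : ℝ≥0∞))
    (c s : ℕ) : (stateG nE dE nP dP c s).2 ≤ 2 ^ (3 * c) := by
  induction s with
  | zero => simp [stateG]
  | succ s ih =>
    rcases stateG_succ nE dE nP dP c s with ⟨h1, h2⟩ | ⟨h1, h2⟩ | ⟨h1, _⟩
    · rw [h1]; simp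
    · rw [h1]
      simp only
      by_contra hcon
      have hj : (stateG nE dE nP dP c s).2 = 2 ^ (3 * c) := by omega
      set r := (stateG nE dE nP dP c s).1 with hr
      have hcov : ∀ j < 2 ^ (3 * c) + 1, ∀ ω ∈ cyl (tgt c r j),
          ((2 ^ (kk c + r - c) : ℕ) : ℝ≥0∞) < tP ω := by
        intro j hj'
        rcases Nat.lt_succ_iff_lt_or_eq.1 hj' with h | h
        · exact covered hP c s j (by omega)
        · subst h
          rw [hj] at h2
          exact hP.lt_of_above h2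
      have hsub : (⋃ j ∈ Finset.range (2 ^ (3 * c) + 1), cyl (tgt c r j)) ⊆
          {ω : Cantor | (((2 ^ (kk c + r - c) : ℕ) : ℝ≥0) : ℝ≥0∞) ≤ tP ω} := by
        intro ω hω
        simp only [Set.mem_iUnion, Finset.mem_range, exists_prop] at hω
        obtain ⟨j, hj1, hj2⟩ := hω
        have := (hcov j hj1 ω hj2).le
        simpa using this
      have hmeas : unif (⋃ j ∈ Finset.range (2 ^ (3 * c) + 1), cyl (tgt c r j)) =
          ((2 ^ (3 * c) + 1 : ℕ) : ℝ≥0∞) * (1 / 2 : ℝ≥0∞) ^ (kk c + r + 2 * c) := by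
        rw [measure_biUnion_finset]
        · simp only [tgt, unif_oneHot, Finset.sum_const, Finset.card_range, nsmul_eq_mul]
        · intro j1 hj1 j2 hj2 hne
          have hj1' : j1 < 2 ^ (3 * c) + 1 := by simpa using hj1
          have hj2' : j2 < 2 ^ (3 * c) + 1 := by simpa using hj2
          exact disjoint_cyl_oneHot (by unfold kk; omega) (by unfold kk; omega) hne
        · intro j _
          exact measurableSet_cyl _
      have hpos : (0 : ℝ≥0) < ((2 ^ (kk c + r - c) : ℕ) : ℝ≥0) := by positivity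
      have hb := hPb _ hpos
      have h3 := (measure_mono hsub).trans hb
      rw [hmeas] at h3
      -- (2^(3c) + 1) * 2^-(kk+r+2c) ≤ 1 / 2^(kk+r-c)
      have hc : c ≤ kk c := by
        unfold kk
        have : c < 2 ^ (3 * c) + 1 := by
          have h4 : c < 2 ^ c := Nat.lt_two_pow_self
          have h5 : 2 ^ c ≤ 2 ^ (3 * c) := Nat.pow_le_pow_right (by norm_num) (by omega)
          omega
        omega
      have hexp : kk c + r + 2 * c = 3 * c + (kk c + r - c) := by omega
      rw [hexp, pow_add] at h3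
      have h6 : ((2 ^ (3 * c) + 1 : ℕ) : ℝ≥0∞) ≤ 2 ^ (3 * c) := by
        have e1 : ((2 ^ (kk c + r - c) : ℕ) : ℝ≥0∞) ≠ 0 := by positivity
        have e2 : ((2 ^ (kk c + r - c) : ℕ) : ℝ≥0∞) ≠ ∞ := ENNReal.natCast_ne_top _
        have e3 : ((2 ^ (3 * c) + 1 : ℕ) : ℝ≥0∞) * (1 / 2 : ℝ≥0∞) ^ (3 * c) ≤ 1 := by
          calc ((2 ^ (3 * c) + 1 : ℕ) : ℝ≥0∞) * (1 / 2 : ℝ≥0∞) ^ (3 * c)
              = (((2 ^ (3 * c) + 1 : ℕ) : ℝ≥0∞) * ((1 / 2 : ℝ≥0∞) ^ (3 * c) *
                (1 / 2 : ℝ≥0∞) ^ (kk c + r - c))) * ((2 ^ (kk c + r - c) : ℕ) : ℝ≥0∞) := by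
                rw [mul_assoc, mul_assoc]
                congr 1
                push_cast
                rw [← mul_pow, ENNReal.div_mul_cancel (by norm_num) (by norm_num), one_pow, mul_one]
            _ ≤ (1 / (((2 ^ (kk c + r - c) : ℕ) : ℝ≥0) : ℝ≥0∞)) *
                ((2 ^ (kk c + r - c) : ℕ) : ℝ≥0∞) := by gcongr
            _ = 1 := by
                rw [ENNReal.coe_natCast, ENNReal.div_mul_cancel e1 e2]
        calc ((2 ^ (3 * c) + 1 : ℕ) : ℝ≥0∞)
            = (((2 ^ (3 * c) + 1 : ℕ) : ℝ≥0∞) * (1 / 2 : ℝ≥0∞) ^ (3 * c)) * 2 ^ (3 * c) := by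
              rw [mul_assoc, ← mul_pow, ENNReal.div_mul_cancel (by norm_num) (by norm_num),
                one_pow, mul_one]
          _ ≤ 1 * 2 ^ (3 * c) := by gcongr
          _ = 2 ^ (3 * c) := one_mul _
      have h7 : (2 ^ (3 * c) + 1 : ℕ) ≤ 2 ^ (3 * c) := by exact_mod_cast h6
      omega
    · rw [h1]; exact ih

end

end Pool.Agent.Rand
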