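import Pool.Agent.Rand.Defs

open MeasureTheory
open scoped ENNReal NNReal

namespace Pool.Agent.Rand

/-! ### Initial segments and cylinders -/

@[simp] lemma length_initSeg (ω : Cantor) (n : ℕ) : (initSeg ω n).length = n := by
  simp [initSeg]

lemma initSeg_eq_iff (ω ω' : Cantor) (n : ℕ) :
    initSeg ω n = initSeg ω' n ↔ ∀ i < n, ω i = ω' i := by
  simp [initSeg, List.map_inj_left]

lemma take_initSeg (ω : Cantor) {m n : ℕ} (h : m ≤ n) :
    (initSeg ω n).take m = initSeg ω m := by
  simp only [initSeg, ← List.map_take, List.take_range, min_eq_left h]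

/-- The cylinder of a string. -/
def cyl (x : List Bool) : Set Cantor := {ω | initSeg ω x.length = x}

lemma mem_cyl {x : List Bool} {ω : Cantor} : ω ∈ cyl x ↔ initSeg ω x.length = x := Iff.rfl

/-- extend a string by zeros to an infinite sequence -/
def ext (x : List Bool) : Cantor := fun i => x.getD i false

lemma initSeg_ext (x : List Bool) : initSeg (ext x) x.length = x := by
  apply List.ext_getElem
  · simp
  · intro i h1 h2
    simp only [initSeg, List.getElem_map, List.getElem_range, ext]
    rw [List.getD_eq_getElem?_getD, List.getElem?_eq_getElem h2]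
    rfl

lemma ext_mem_cyl (x : List Bool) : ext x ∈ cyl x := initSeg_ext x

lemma cyl_eq_pi (x : List Bool) :
    cyl x = Set.pi (Finset.range x.length : Set ℕ) (fun i => {x.getD i false}) := by
  ext ω
  constructor
  · intro h i hi
    have hi' : i < x.length := by simpa using hi
    have h1 : initSeg ω x.length = x := h
    have h2 : initSeg (ext x) x.length = x := initSeg_ext x
    have h3 := (initSeg_eq_iff ω (ext x) x.length).1 (h1.trans h2.symm) i hi'
    simpa [ext] using h3
  · intro h
    have h2 : initSeg (ext x) x.length = x := initSeg_ext x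
    show initSeg ω x.length = x
    rw [← h2]
    rw [length_initSeg]
    rw [initSeg_eq_iff]
    intro i hi
    have := h i (by simpa using hi)
    simpa [ext] using this

instance : IsProbabilityMeasure (PMF.uniformOfFintype Bool).toMeasure :=
  PMF.toMeasure.isProbabilityMeasure _

instance : IsProbabilityMeasure unif := by
  unfold unif
  infer_instance

lemma coin_singleton (b : Bool) : (PMF.uniformOfFintype Bool).toMeasure {b} = 1 / 2 := by
  rw [PMF.toMeasure_apply_singleton _ _ (measurableSet_singleton b)]
  simp

lemma unif_cyl (x : List Bool) : unif (cyl x) = (1 / 2 : ℝ≥0∞) ^ x.length := by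
  rw [cyl_eq_pi, unif, Measure.infinitePi_pi]
  · simp
  · intro i _
    exact measurableSet_singleton _

lemma measurable_comp_initSeg {β : Type*} [MeasurableSpace β] (F : List Bool → β) (n : ℕ) :
    Measurable (fun ω : Cantor => F (initSeg ω n)) := by
  have h1 : Measurable (fun ω : Cantor => (fun i : Fin n => ω i)) := by
    apply measurable_pi_lambda
    intro i
    exact measurable_pi_apply _
  have h2 : Measurable (fun v : Fin n → Bool => F (List.ofFn v)) := Measurable.of_discrete
  have h3 := h2.comp h1
  have h4 : (fun ω : Cantor => F (initSeg ω n)) =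
      (fun v : Fin n → Bool => F (List.ofFn v)) ∘ (fun ω : Cantor => (fun i : Fin n => ω i)) := by
    funext ω
    simp only [Function.comp]
    congr 1
    apply List.ext_getElem
    · simp
    · intro i h1 h2
      simp [initSeg]
  rw [h4]
  exact h3

lemma continuous_comp_initSeg {β : Type*} [TopologicalSpace β] (F : List Bool → β) (n : ℕ) :
    Continuous (fun ω : Cantor => F (initSeg ω n)) := by
  have h1 : Continuous (fun ω : Cantor => (fun i : Fin n => ω i)) := by
    apply continuous_pi
    intro i
    exact continuous_apply _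
  have h2 : Continuous (fun v : Fin n → Bool => F (List.ofFn v)) := continuous_of_discreteTopology
  have h3 := h2.comp h1
  have h4 : (fun ω : Cantor => F (initSeg ω n)) =
      (fun v : Fin n → Bool => F (List.ofFn v)) ∘ (fun ω : Cantor => (fun i : Fin n => ω i)) := by
    funext ω
    simp only [Function.comp]
    congr 1
    apply List.ext_getElem
    · simp
    · intro i h1 h2
      simp [initSeg]
  rw [h4]
  exact h3

lemma measurableSet_initSeg (p : List Bool → Prop) (n : ℕ) :
    MeasurableSet {ω : Cantor | p (initSeg ω n)} := by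
  have := measurable_comp_initSeg p n
  exact measurableSet_setOfPred.2 this

lemma isClosed_initSeg (p : List Bool → Prop) (n : ℕ) :
    IsClosed {ω : Cantor | p (initSeg ω n)} := by
  classical
  have h := continuous_comp_initSeg (fun x => (decide (p x) : Bool)) n
  have h2 : {ω : Cantor | p (initSeg ω n)} = (fun ω : Cantor => decide (p (initSeg ω n))) ⁻¹' {true} := by
    ext ω
    simp
  rw [h2]
  exact (isClosed_discrete _).preimage h

lemma measurableSet_cyl (x : List Bool) : MeasurableSet (cyl x) :=
  measurableSet_initSeg (fun y => y = x) x.length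

lemma isClosed_cyl (x : List Bool) : IsClosed (cyl x) :=
  isClosed_initSeg (fun y => y = x) x.length

/-- compactness: a decreasing sequence of nonempty sets, each given by finitely many
coordinates, has nonempty intersection -/
lemma exists_of_forall_stage (S : ℕ → Set Cantor) (hne : ∀ s, (S s).Nonempty)
    (hanti : ∀ s, S (s + 1) ⊆ S s) (hcl : ∀ s, IsClosed (S s)) : ∃ ω, ∀ s, ω ∈ S s := by
  have := IsCompact.nonempty_iInter_of_sequence_nonempty_isCompact_isClosed S hanti hne
    ((hcl 0).isCompact) hcl
  obtain ⟨ω, hω⟩ := this
  exact ⟨ω, fun s => Set.mem_iInter.1 hω s⟩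

/-! ### One-hot strings -/

/-- the string of length `len` whose only `true` is at position `pos` -/
def oneHot (len pos : ℕ) : List Bool := (List.range len).map (fun i => i == pos)

@[simp] lemma length_oneHot (len pos : ℕ) : (oneHot len pos).length = len := by simp [oneHot]

lemma mem_cyl_oneHot {len pos : ℕ} {ω : Cantor} :
    ω ∈ cyl (oneHot len pos) ↔ ∀ i < len, ω i = (i == pos) := by
  rw [mem_cyl, length_oneHot]
  simp [initSeg, oneHot, List.map_inj_left]

lemma disjoint_cyl_oneHot {len p q : ℕ} (hp : p < len) (hq : q < len) (hpq : p ≠ q) :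
    Disjoint (cyl (oneHot len p)) (cyl (oneHot len q)) := by
  rw [Set.disjoint_left]
  intro ω h1 h2
  rw [mem_cyl_oneHot] at h1 h2
  have := (h1 p hp).symm.trans (h2 p hp)
  simp at this
  exact hpq this

lemma unif_oneHot (len pos : ℕ) : unif (cyl (oneHot len pos)) = (1 / 2 : ℝ≥0∞) ^ len := by
  rw [unif_cyl, length_oneHot]

/-- the cylinder of `0^n 1` -/
lemma mem_cyl_zeros_one {n : ℕ} {ω : Cantor} :
    ω ∈ cyl (oneHot (n + 1) n) ↔ (∀ i < n, ω i = false) ∧ ω n = true := by
  rw [mem_cyl_oneHot]
  constructor
  · intro h
    refine ⟨fun i hi => ?_, ?_⟩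
    · rw [h i (by omega)]
      simp; omega
    · rw [h n (by omega)]; simp
  · rintro ⟨h1, h2⟩ i hi
    rcases Nat.lt_succ_iff_lt_or_eq.1 hi with h | h
    · rw [h1 i h]; symm; simp; omega
    · subst h; rw [h2]; simp

end Pool.Agent.Rand
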