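import Pool.Agent.Rand.Reward

open MeasureTheory
open scoped ENNReal NNReal

namespace Pool.Agent.Rand

/-! ### The constant test -/

lemma one_isExpectationTest : IsExpectationTest (fun _ => 1) := by
  refine ⟨lowerSemicomputable_of_nat (fun _ _ => 1) (Computable.const 1) (fun _ _ => le_rfl) ?_, ?_⟩
  · intro ω; simp
  · simp

/-! ### The test counting leading zeros -/

/-- number of leading zeros of a string -/
def zc (x : List Bool) : ℕ := (x.takeWhile (fun b => !b)).length

lemma primrec_zc : Primrec zc :=
  Primrec.list_length.comp (Primrec.list_takeWhile Primrec.not)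

lemma le_zc_iff (x : List Bool) (n : ℕ) :
    n ≤ zc x ↔ n ≤ x.length ∧ ∀ i < n, x.getD i true = false := by
  unfold zc
  induction x generalizing n with
  | nil => simp; intro h i; omega
  | cons b t ih =>
    cases b
    · rw [List.takeWhile_cons_of_pos (by simp)]
      cases n with
      | zero => simp
      | succ n =>
        rw [List.length_cons, List.length_cons, Nat.succ_le_succ_iff, Nat.succ_le_succ_iff, ih]
        refine and_congr_right (fun _ => ?_)
        constructor
        · intro h i hi
          cases i with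
          | zero => rfl
          | succ i => simpa using h i (by omega)
        · intro h i hi
          simpa using h (i + 1) (by omega)
    · rw [List.takeWhile_cons_of_neg (by simp)]
      cases n with
      | zero => simp
      | succ n =>
        simp only [List.length_nil, Nat.le_zero, Nat.succ_ne_zero, false_iff, not_and, not_forall]
        intro _
        exact ⟨0, by omega, by simp⟩

lemma le_zc_initSeg (ω : Cantor) (s n : ℕ) :
    n ≤ zc (initSeg ω s) ↔ n ≤ s ∧ ∀ i < n, ω i = false := by
  rw [le_zc_iff, length_initSeg]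
  refine and_congr_right (fun hn => ?_)
  refine forall_congr' (fun i => ?_)
  refine imp_congr_right (fun hi => ?_)
  have : (initSeg ω s).getD i true = ω i := by
    rw [List.getD_eq_getElem?_getD, List.getElem?_eq_getElem (by rw [length_initSeg]; omega)]
    simp [initSeg]
  rw [this]

/-- `2 ^ (number of leading zeros)` -/
noncomputable def lead (ω : Cantor) : ℝ≥0∞ := ⨆ s, ((2 ^ zc (initSeg ω s) : ℕ) : ℝ≥0∞)

lemma lead_lsc : LowerSemicomputable lead := by
  refine lowerSemicomputable_of_nat (fun _ x => 2 ^ zc x) ?_ ?_ (fun ω => rfl)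
  · exact comp_pow (Computable.const 2) (primrec_zc.to_comp.comp Computable.snd)
  · intro ω s
    refine Nat.pow_le_pow_right (by norm_num) ?_
    have h := (le_zc_initSeg ω s (zc (initSeg ω s))).1 le_rfl
    rw [le_zc_initSeg]
    exact ⟨by omega, h.2⟩

lemma le_lead {ω : Cantor} {n : ℕ} (h : ∀ i < n, ω i = false) : (2 : ℝ≥0∞) ^ n ≤ lead ω := by
  unfold lead
  refine le_iSup_of_le n ?_
  push_cast
  exact pow_le_pow_right₀ (by norm_num) ((le_zc_initSeg ω n n).2 ⟨le_rfl, h⟩)

/-- the string of `n` zeros -/
lemma unif_zeros (n : ℕ) : unif {ω : Cantor | ∀ i < n, ω i = false} = (1 / 2 : ℝ≥0∞) ^ n := by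
  have : {ω : Cantor | ∀ i < n, ω i = false} = cyl (List.replicate n false) := by
    ext ω
    rw [mem_cyl, List.length_replicate]
    simp only [Set.mem_ofPred_eq, initSeg]
    constructor
    · intro h
      rw [List.eq_replicate_iff]
      refine ⟨by simp, ?_⟩
      intro b hb
      simp only [List.mem_map, List.mem_range] at hb
      obtain ⟨i, hi, rfl⟩ := hb
      exact h i hi
    · intro h i hi
      rw [List.eq_replicate_iff] at h
      exact h.2 _ (List.mem_map.2 ⟨i, List.mem_range.2 hi, rfl⟩)
  rw [this, unif_cyl, List.length_replicate]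

lemma lead_isProbabilityTest : IsProbabilityTest lead := by
  refine ⟨lead_lsc, fun c hc => ?_⟩
  obtain ⟨n, hn⟩ : ∃ n : ℕ, c ≤ 2 ^ n := by
    obtain ⟨n, hn⟩ := pow_unbounded_of_one_lt c (by norm_num : (1 : ℝ≥0) < 2)
    exact ⟨n, hn.le⟩
  classical
  have hex : ∃ n : ℕ, c ≤ 2 ^ n := ⟨n, hn⟩
  set m := Nat.find hex with hm
  have hm1 : c ≤ 2 ^ m := Nat.find_spec hex
  have hm2 : ∀ k < m, (2 : ℝ≥0) ^ k < c := fun k hk => not_le.1 (Nat.find_min hex hk)
  have hsub : {ω : Cantor | (c : ℝ≥0∞) ≤ lead ω} ⊆ {ω : Cantor | ∀ i < m, ω i = false} := by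
    intro ω hω
    simp only [Set.mem_ofPred_eq] at hω ⊢
    rcases Nat.eq_zero_or_pos m with h0 | hpos
    · rw [h0]; intro i hi; omega
    · have h1 := hm2 (m - 1) (by omega)
      have h2 : ((2 : ℝ≥0∞)) ^ (m - 1) < lead ω := by
        refine lt_of_lt_of_le ?_ hω
        exact_mod_cast h1
      unfold lead at h2
      rw [lt_iSup_iff] at h2
      obtain ⟨s, hs⟩ := h2
      push_cast at hs
      have h3 : m - 1 < zc (initSeg ω s) := by
        by_contra hcon
        push Not at hcon
        exact absurd hs (not_lt.2 (pow_le_pow_right₀ (by norm_num) hcon))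
      have h4 : m ≤ zc (initSeg ω s) := by omega
      exact ((le_zc_initSeg ω s m).1 h4).2
  refine (measure_mono hsub).trans ?_
  rw [unif_zeros]
  rw [one_div, one_div, ← ENNReal.inv_pow]
  refine ENNReal.inv_le_inv.2 ?_
  exact_mod_cast hm1

/-! ### Stage-wise enumeration of recursively enumerable predicates -/

lemma exists_stage {α : Type*} [Primcodable α] {p : α → Prop} (hp : REPred p) :
    ∃ w : ℕ → α → Bool, Computable₂ w ∧ (∀ s a, w s a = true → w (s + 1) a = true) ∧
      ∀ a, p a ↔ ∃ s, w s a = true := by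
  obtain ⟨c, hc⟩ := Nat.Partrec.Code.exists_code.1 (Partrec.bind_decode₂_iff.1 hp)
  refine ⟨fun s a => (Nat.Partrec.Code.evaln s c (Encodable.encode a)).isSome, ?_, ?_, ?_⟩
  · have h1 : Primrec (fun q : ℕ × α => Nat.Partrec.Code.evaln q.1 c (Encodable.encode q.2)) :=
      Nat.Partrec.Code.primrec_evaln.comp
        ((Primrec.fst.pair (Primrec.const c)).pair (Primrec.encode.comp Primrec.snd))
    exact (Primrec.option_isSome.comp h1).to_comp
  · intro s a h
    rw [Option.isSome_iff_exists] at h ⊢
    obtain ⟨x, hx⟩ := h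
    exact ⟨x, Nat.Partrec.Code.evaln_mono (Nat.le_succ s) hx⟩
  · intro a
    have h1 : p a ↔ (Nat.Partrec.Code.eval c (Encodable.encode a)).Dom := by
      rw [hc]
      simp only [Encodable.encodek₂, Part.coe_some, Part.bind_some]
      constructor
      · intro h; exact ⟨h, trivial⟩
      · rintro ⟨h, _⟩; exact h
    rw [h1, Part.dom_iff_mem]
    constructor
    · rintro ⟨x, hx⟩
      obtain ⟨s, hs⟩ := Nat.Partrec.Code.evaln_complete.1 hx
      exact ⟨s, Option.isSome_iff_exists.2 ⟨x, hs⟩⟩
    · rintro ⟨s, hs⟩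
      obtain ⟨x, hx⟩ := Option.isSome_iff_exists.1 hs
      exact ⟨x, Nat.Partrec.Code.evaln_sound hx⟩

end Pool.Agent.Rand
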