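import Mathlib

/-! Auxiliary facts on computable functions. -/

namespace Pool.Agent.Rand

variable {α β γ σ : Type*} [Primcodable α] [Primcodable β] [Primcodable γ] [Primcodable σ]

lemma foldl_eq_natRec {β σ : Type*} (h : σ → β → σ) (init : σ) (l : List β) (n : ℕ) :
    (Nat.rec init (fun i acc => (l[i]?).elim acc (fun b => h acc b)) n : σ)
      = (l.take n).foldl h init := by
  induction n with
  | zero => simp
  | succ n ih =>
    show (l[n]?).elim _ _ = _
    rw [ih, List.take_add_one, List.foldl_append]
    cases l[n]? <;> simp

/-- folding a computable function over a computable list is computable -/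
theorem computable_foldl {f : α → List β} {g : α → σ} {h : α → σ → β → σ}
    (hf : Computable f) (hg : Computable g)
    (hh : Computable (fun p : α × σ × β => h p.1 p.2.1 p.2.2)) :
    Computable (fun a => (f a).foldl (h a) (g a)) := by
  have key : Computable (fun a => (Nat.rec (g a)
      (fun i acc => ((f a)[i]?).elim acc (fun b => h a acc b)) (f a).length : σ)) := by
    refine Computable.nat_rec (f := fun a => (f a).length) (g := g)
      (h := fun a p => ((f a)[p.1]?).elim p.2 (fun b => h a p.2 b)) ?_ hg ?_
    · exact Computable.list_length.comp hf
    · have h1 : Computable (fun q : α × ℕ × σ => (f q.1)[q.2.1]?) :=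
        Computable.list_getElem?.comp (hf.comp Computable.fst)
          (Computable.fst.comp Computable.snd)
      have h2 : Computable (fun q : α × ℕ × σ =>
          (Option.casesOn ((f q.1)[q.2.1]?) (q.2.2) (fun b => h q.1 q.2.2 b) : σ)) := by
        refine Computable.option_casesOn (o := fun q : α × ℕ × σ => (f q.1)[q.2.1]?)
          (f := fun q => q.2.2) (g := fun q b => h q.1 q.2.2 b) h1
          (Computable.snd.comp Computable.snd) ?_
        exact hh.comp ((Computable.fst.comp Computable.fst).pair
          ((Computable.snd.comp (Computable.snd.comp Computable.fst)).pair Computable.snd))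
      refine h2.of_eq ?_
      intro q
      show (Option.casesOn ((f q.1)[q.2.1]?) (q.2.2) (fun b => h q.1 q.2.2 b) : σ) =
        ((f q.1)[q.2.1]?).elim q.2.2 (fun b => h q.1 q.2.2 b)
      cases (f q.1)[q.2.1]? <;> rfl
  refine key.of_eq ?_
  intro a
  rw [foldl_eq_natRec, List.take_length]

/-- universal quantification over a computable list -/
theorem computable_all {f : α → List β} {p : α → β → Bool}
    (hf : Computable f) (hp : Computable₂ p) :
    Computable (fun a => (f a).all (p a)) := by
  have h : Computable (fun a => (f a).foldl (fun acc b => acc && p a b) true) := by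
    refine computable_foldl (g := fun _ => true) (h := fun a acc b => acc && p a b) hf
      (Computable.const true) ?_
    have h1 : Computable (fun q : α × Bool × β => p q.1 q.2.2) :=
      hp.comp Computable.fst (Computable.snd.comp Computable.snd)
    exact (Primrec.and.to_comp).comp (Computable.fst.comp Computable.snd) h1
  refine h.of_eq ?_
  intro a
  generalize f a = l
  have : ∀ (l : List β) (b : Bool), l.foldl (fun acc b => acc && p a b) b = (b && l.all (p a)) := by
    intro l
    induction l with
    | nil => intro b; simp
    | cons x t ih =>
      intro b
      rw [List.foldl_cons, ih, List.all_cons]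
      cases b <;> cases p a x <;> rfl
  rw [this]
  simp

/-- all binary strings of length `n` -/
def allStr : ℕ → List (List Bool)
  | 0 => [[]]
  | n + 1 => (allStr n).flatMap (fun x => [x ++ [false], x ++ [true]])

lemma mem_allStr : ∀ (n : ℕ) (x : List Bool), x ∈ allStr n ↔ x.length = n := by
  intro n
  induction n with
  | zero => intro x; simp [allStr]
  | succ n ih =>
    intro x
    simp only [allStr, List.mem_flatMap, ih]
    constructor
    · rintro ⟨y, hy, hx⟩
      simp at hx
      rcases hx with rfl | rfl <;> simp [hy]
    · intro hx
      rcases List.eq_nil_or_concat x with rfl | ⟨y, b, rfl⟩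
      · simp at hx
      · refine ⟨y, by simpa using hx, ?_⟩
        cases b <;> simp

theorem primrec_allStr : Primrec allStr := by
  have h : Primrec (fun n : ℕ => (Nat.rec [[]]
      (fun _ l => l.flatMap (fun x : List Bool => [x ++ [false], x ++ [true]])) n :
      List (List Bool))) := by
    refine Primrec.nat_rec₁ _ ?_
    refine Primrec.list_flatMap Primrec.snd ?_
    refine Primrec.list_cons.comp ?_ (Primrec.list_cons.comp ?_ (Primrec.const []))
    · exact Primrec.list_append.comp Primrec.snd (Primrec.const [false])
    · exact Primrec.list_append.comp Primrec.snd (Primrec.const [true])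
  refine h.of_eq ?_
  intro n
  induction n with
  | zero => rfl
  | succ n ih =>
    show List.flatMap _ _ = _
    rw [allStr, ih]

theorem primrec_pow : Primrec₂ ((· ^ ·) : ℕ → ℕ → ℕ) :=
  Primrec₂.unpaired'.1 Nat.Primrec.pow

theorem comp_add {f g : α → ℕ} (hf : Computable f) (hg : Computable g) :
    Computable (fun a => f a + g a) := (Primrec.nat_add.to_comp).comp hf hg

theorem comp_sub {f g : α → ℕ} (hf : Computable f) (hg : Computable g) :
    Computable (fun a => f a - g a) := (Primrec.nat_sub.to_comp).comp hf hg

theorem comp_mul {f g : α → ℕ} (hf : Computable f) (hg : Computable g) :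
    Computable (fun a => f a * g a) := (Primrec.nat_mul.to_comp).comp hf hg

theorem comp_pow {f g : α → ℕ} (hf : Computable f) (hg : Computable g) :
    Computable (fun a => f a ^ g a) := (primrec_pow.to_comp).comp hf hg

theorem comp_max {f g : α → ℕ} (hf : Computable f) (hg : Computable g) :
    Computable (fun a => max (f a) (g a)) := (Primrec.nat_max.to_comp).comp hf hg

theorem comp_le {f g : α → ℕ} (hf : Computable f) (hg : Computable g) :
    Computable (fun a => decide (f a ≤ g a)) := (Primrec.nat_le.decide.to_comp).comp hf hg

theorem comp_lt {f g : α → ℕ} (hf : Computable f) (hg : Computable g) :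
    Computable (fun a => decide (f a < g a)) := (Primrec.nat_lt.decide.to_comp).comp hf hg

theorem comp_and {f g : α → Bool} (hf : Computable f) (hg : Computable g) :
    Computable (fun a => f a && g a) := (Primrec.and.to_comp).comp hf hg

theorem comp_or {f g : α → Bool} (hf : Computable f) (hg : Computable g) :
    Computable (fun a => f a || g a) := (Primrec.or.to_comp).comp hf hg

theorem comp_not {f : α → Bool} (hf : Computable f) :
    Computable (fun a => !(f a)) := (Primrec.not.to_comp).comp hf

theorem comp_beq [DecidableEq β] {f g : α → β} (hf : Computable f) (hg : Computable g) :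
    Computable (fun a => f a == g a) := ((Primrec.beq (α := β)).to_comp).comp hf hg

theorem comp_eq [DecidableEq β] {f g : α → β} (hf : Computable f) (hg : Computable g) :
    Computable (fun a => decide (f a = g a)) :=
  ((Primrec.eq (α := β)).decide.to_comp).comp hf hg

theorem comp_take {f : α → ℕ} {g : α → List β} (hf : Computable f) (hg : Computable g) :
    Computable (fun a => (g a).take (f a)) := (Primrec.list_take.to_comp).comp hf hg

theorem comp_succ {f : α → ℕ} (hf : Computable f) :
    Computable (fun a => f a + 1) := Computable.succ.comp hf

end Pool.Agent.Rand
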