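import Pool.Agent.Rand.Analysis

open MeasureTheory
open scoped ENNReal NNReal

namespace Pool.Agent.Rand

variable {nE dE nP dP : ℕ → List Bool → ℕ} {tE tP : Cantor → ℝ≥0∞}

lemma disjoint_cmp (c : ℕ) {r r' : ℕ} (h : r ≠ r') : Disjoint (cyl (cmp c r)) (cyl (cmp c r')) := by
  rw [Set.disjoint_left]
  intro ω h1 h2
  unfold cmp at h1 h2
  rw [mem_cyl_zeros_one] at h1 h2
  rcases lt_or_gt_of_ne h with hlt | hlt
  · have := h2.1 (kk c + r) (by omega)
    rw [h1.2] at this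
    simp at this
  · have := h1.1 (kk c + r') (by omega)
    rw [h2.2] at this
    simp at this

/-- the integral over the comparison cylinders is bounded by the whole integral -/
lemma tsum_lintegral_cmp (tE : Cantor → ℝ≥0∞) (c : ℕ) :
    ∑' r, ∫⁻ ω in cyl (cmp c r), tE ω ∂unif ≤ ∫⁻ ω, tE ω ∂unif := by
  rw [← lintegral_iUnion (fun r => measurableSet_cyl _)
    (fun r r' h => disjoint_cmp c h)]
  exact setLIntegral_le_lintegral _ _

lemma lintegral_cmp_ge (hE : Approx nE dE tE) (c r j s : ℕ)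
    (h : above nE dE s (cmp c r) (2 ^ (r + j)) = true) :
    (2 : ℝ≥0∞) ^ j * (1 / 2) ^ (kk c + 1) ≤ ∫⁻ ω in cyl (cmp c r), tE ω ∂unif := by
  have h1 : ∫⁻ _ω in cyl (cmp c r), ((2 ^ (r + j) : ℕ) : ℝ≥0∞) ∂unif ≤
      ∫⁻ ω in cyl (cmp c r), tE ω ∂unif := by
    refine setLIntegral_mono' (measurableSet_cyl _) ?_
    intro ω hω
    exact (hE.lt_of_above h ω hω).le
  refine le_trans (le_of_eq ?_) h1
  rw [setLIntegral_const]
  unfold cmp
  rw [unif_oneHot]
  push_cast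
  rw [show kk c + r + 1 = r + (kk c + 1) by ring, pow_add 2 r j, pow_add (1 / 2) r (kk c + 1)]
  have : (2 : ℝ≥0∞) ^ r * (1 / 2) ^ r = 1 := by
    rw [← mul_pow, ENNReal.mul_div_cancel (by norm_num) (by norm_num), one_pow]
  calc (2 : ℝ≥0∞) ^ j * (1 / 2) ^ (kk c + 1)
      = ((2 : ℝ≥0∞) ^ r * (1 / 2) ^ r) * (2 ^ j * (1 / 2) ^ (kk c + 1)) := by rw [this, one_mul]
    _ = 2 ^ r * 2 ^ j * ((1 / 2) ^ r * (1 / 2) ^ (kk c + 1)) := by ring

variable (nE dE nP dP)

/-- weight of a pair in the cost sum of game `c` -/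
noncomputable def wt (c : ℕ) (r j : ℕ) : ℝ≥0∞ :=
  (Set.range (stateG nE dE nP dP c)).indicator (fun q => (2 : ℝ≥0∞) ^ q.2 * (1 / 2) ^ kk c) (r, j)

variable {nE dE nP dP}

lemma tsum_wt_le_of_bound (c r J : ℕ)
    (h : ∀ s, (stateG nE dE nP dP c s).1 = r → (stateG nE dE nP dP c s).2 ≤ J) :
    ∑' j, wt nE dE nP dP c r j ≤ (2 : ℝ≥0∞) ^ (J + 1) * (1 / 2) ^ kk c := by
  have h1 : ∑' j, wt nE dE nP dP c r j ≤
      ∑ j ∈ Finset.range (J + 1), (2 : ℝ≥0∞) ^ j * (1 / 2) ^ kk c := by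
    rw [tsum_eq_sum (s := Finset.range (J + 1))]
    · refine Finset.sum_le_sum (fun j _ => ?_)
      unfold wt
      exact Set.indicator_le_self' (fun _ _ => zero_le) _
    · intro j hj
      unfold wt
      rw [Set.indicator_of_notMem]
      rintro ⟨s, hs⟩
      have h2 := h s (by rw [hs])
      rw [hs] at h2
      simp at hj h2
      omega
  refine h1.trans ?_
  rw [← Finset.sum_mul]
  gcongr
  have : ∀ n : ℕ, ∑ j ∈ Finset.range n, (2 : ℝ≥0∞) ^ j ≤ 2 ^ n := by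
    intro n
    induction n with
    | zero => simp
    | succ n ih =>
      rw [Finset.sum_range_succ, pow_succ, mul_two]
      gcongr
  exact this _

/-- cost of a single round -/
lemma tsum_wt_le (hE : Approx nE dE tE) (hP : Approx nP dP tP)
    (hPb : ∀ c : ℝ≥0, 0 < c → unif {ω : Cantor | (c : ℝ≥0∞) ≤ tP ω} ≤ 1 / (c : ℝ≥0∞))
    (c r : ℕ) :
    ∑' j, wt nE dE nP dP c r j ≤ 4 * ∫⁻ ω in cyl (cmp c r), tE ω ∂unif +
      ({r | (∃ s, (stateG nE dE nP dP c s).1 = r) ∧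
        ∀ s, (stateG nE dE nP dP c s).1 ≤ r} : Set ℕ).indicator (fun _ => 1) r := by
  by_cases hlost : ∃ s, r < (stateG nE dE nP dP c s).1
  · obtain ⟨s, hs⟩ := hlost
    obtain ⟨s', _, h1, h2, h3⟩ := exists_lost nE dE nP dP c s r hs
    refine le_trans ?_ le_self_add
    refine (tsum_wt_le_of_bound c r (stateG nE dE nP dP c s').2 ?_).trans ?_
    · intro t ht
      rcases le_or_gt t s' with htle | htgt
      · rcases lex_mono nE dE nP dP c htle with h | h <;> omega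
      · have := round_mono nE dE nP dP c (show s' + 1 ≤ t by omega)
        omega
    · refine le_trans (le_of_eq ?_) (mul_le_mul_right (lintegral_cmp_ge hE c r _ s' h3) 4)
      rw [pow_succ, pow_succ]
      have : (4 : ℝ≥0∞) * (1 / 2) = 2 := by
        rw [show (4 : ℝ≥0∞) = 2 * 2 by norm_num, mul_assoc,
          ENNReal.mul_div_cancel (by norm_num) (by norm_num), mul_one]
      calc _ = (2 : ℝ≥0∞) * (2 ^ (stateG nE dE nP dP c s').2 * (1 / 2) ^ kk c) := by ring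
        _ = (4 * (1 / 2)) * (2 ^ (stateG nE dE nP dP c s').2 * (1 / 2) ^ kk c) := by rw [this]
        _ = _ := by ring
  · push Not at hlost
    by_cases hvis : ∃ s, (stateG nE dE nP dP c s).1 = r
    · rw [Set.indicator_of_mem (by exact ⟨hvis, hlost⟩)]
      refine le_trans ?_ le_add_self
      refine (tsum_wt_le_of_bound c r (2 ^ (3 * c)) ?_).trans ?_
      · intro t _
        exact index_le hP hPb c t
      · apply le_of_eq
        unfold kk
        rw [← mul_pow, ENNReal.mul_div_cancel (by norm_num) (by norm_num), one_pow]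
    · have : ∑' j, wt nE dE nP dP c r j = 0 := by
        rw [ENNReal.tsum_eq_zero]
        intro j
        unfold wt
        rw [Set.indicator_of_notMem]
        rintro ⟨s, hs⟩
        exact hvis ⟨s, by rw [hs]⟩
      rw [this]
      exact zero_le

/-- total cost of a game -/
lemma tsum_tsum_wt_le (hE : Approx nE dE tE) (hP : Approx nP dP tP)
    (hPb : ∀ c : ℝ≥0, 0 < c → unif {ω : Cantor | (c : ℝ≥0∞) ≤ tP ω} ≤ 1 / (c : ℝ≥0∞))
    (c : ℕ) :
    ∑' r, ∑' j, wt nE dE nP dP c r j ≤ 4 * ∫⁻ ω, tE ω ∂unif + 1 := by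
  refine (ENNReal.tsum_le_tsum (fun r => tsum_wt_le hE hP hPb c r)).trans ?_
  rw [ENNReal.tsum_add, ENNReal.tsum_mul_left]
  gcongr
  · exact tsum_lintegral_cmp tE c
  · set A : Set ℕ := {r | (∃ s, (stateG nE dE nP dP c s).1 = r) ∧
        ∀ s, (stateG nE dE nP dP c s).1 ≤ r} with hA
    by_cases h : ∃ r, r ∈ A
    · obtain ⟨r, hr⟩ := h
      rw [tsum_eq_single r]
      · exact Set.indicator_le_self' (fun _ _ => zero_le) _
      · intro r' hr'
        rw [Set.indicator_of_notMem]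
        intro hr''
        apply hr'
        obtain ⟨⟨s, hs⟩, h2⟩ := hr
        obtain ⟨⟨s', hs'⟩, h2'⟩ := hr''
        have := h2 s'
        have := h2' s
        omega
    · push Not at h
      have : ∀ r, A.indicator (fun _ => (1 : ℝ≥0∞)) r = 0 := fun r =>
        Set.indicator_of_notMem (h r) _
      simp [this]

/-- only finitely many rounds are played -/
lemma exists_round_bound (hE : Approx nE dE tE) (hEi : ∫⁻ ω, tE ω ∂unif < ∞) (c : ℕ) :
    ∃ R, ∀ s, (stateG nE dE nP dP c s).1 ≤ R := by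
  by_contra hcon
  push Not at hcon
  have h1 : ∀ r, (1 / 2 : ℝ≥0∞) ^ (kk c + 1) ≤ ∫⁻ ω in cyl (cmp c r), tE ω ∂unif := by
    intro r
    obtain ⟨s, hs⟩ := hcon r
    obtain ⟨s', _, _, _, h3⟩ := exists_lost nE dE nP dP c s r hs
    refine le_trans ?_ (lintegral_cmp_ge hE c r _ s' h3)
    calc (1 / 2 : ℝ≥0∞) ^ (kk c + 1) = 1 * (1 / 2 : ℝ≥0∞) ^ (kk c + 1) := (one_mul _).symm
      _ ≤ _ := by
        gcongr
        exact one_le_pow₀ (by norm_num)
  have h2 := (ENNReal.tsum_le_tsum h1).trans (tsum_lintegral_cmp tE c)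
  rw [ENNReal.tsum_const_eq_top_of_ne_zero (pow_ne_zero _ (by simp))] at h2
  exact absurd (lt_of_le_of_lt h2 hEi) (lt_irrefl _)

lemma eventually_const (f : ℕ → ℕ) (hm : ∀ s t, s ≤ t → f s ≤ f t) (R : ℕ)
    (hR : ∀ s, f s ≤ R) : ∃ s₀, ∀ s, s₀ ≤ s → f s = f s₀ := by
  by_contra hcon
  push Not at hcon
  have h : ∀ n, ∃ s, n ≤ f s := by
    intro n
    induction n with
    | zero => exact ⟨0, Nat.zero_le _⟩
    | succ n ih =>
      obtain ⟨s, hs⟩ := ih
      obtain ⟨t, ht1, ht2⟩ := hcon s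
      have := hm s t ht1
      exact ⟨t, by omega⟩
  obtain ⟨s, hs⟩ := h (R + 1)
  have := hR s
  omega

/-- the game stabilises -/
lemma exists_stable (hE : Approx nE dE tE) (hEi : ∫⁻ ω, tE ω ∂unif < ∞) (hP : Approx nP dP tP)
    (hPb : ∀ c : ℝ≥0, 0 < c → unif {ω : Cantor | (c : ℝ≥0∞) ≤ tP ω} ≤ 1 / (c : ℝ≥0∞))
    (c : ℕ) :
    ∃ s₀, ∀ s, s₀ ≤ s → stateG nE dE nP dP c s = stateG nE dE nP dP c s₀ := by
  obtain ⟨R, hR⟩ := exists_round_bound (nP := nP) (dP := dP) hE hEi c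
  obtain ⟨s₀, hs₀⟩ := eventually_const (fun s => (stateG nE dE nP dP c s).1)
    (fun s t h => round_mono nE dE nP dP c h) R hR
  obtain ⟨s₁, hs₁⟩ := eventually_const (fun s => (stateG nE dE nP dP c (s₀ + s)).2) (by
    intro s t h
    have h1 := lex_mono nE dE nP dP c (show s₀ + s ≤ s₀ + t by omega)
    have h2 := hs₀ (s₀ + s) (by omega)
    have h3 := hs₀ (s₀ + t) (by omega)
    omega) (2 ^ (3 * c)) (fun s => index_le hP hPb c _)
  refine ⟨s₀ + s₁, fun s hs => ?_⟩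
  have h1 := hs₀ s (by omega)
  have h2 := hs₀ (s₀ + s₁) (by omega)
  have h3 := hs₁ (s - s₀) (by omega)
  rw [show s₀ + (s - s₀) = s by omega] at h3
  exact Prod.ext (h1.trans h2.symm) h3

/-- the outcome of the game with parameter `c` -/
theorem game_outcome (hE : Approx nE dE tE) (hEi : ∫⁻ ω, tE ω ∂unif < ∞) (hP : Approx nP dP tP)
    (hPb : ∀ c : ℝ≥0, 0 < c → unif {ω : Cantor | (c : ℝ≥0∞) ≤ tP ω} ≤ 1 / (c : ℝ≥0∞))
    (c : ℕ) :
    ∃ r j : ℕ, (r, j) ∈ Set.range (stateG nE dE nP dP c) ∧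
      (∃ ω ∈ cyl (cmp c r), tE ω ≤ 2 ^ (r + j)) ∧
      (∃ ω ∈ cyl (tgt c r j), tP ω ≤ 2 ^ (kk c + r - c)) := by
  obtain ⟨s₀, hs₀⟩ := exists_stable hE hEi hP hPb c
  refine ⟨(stateG nE dE nP dP c s₀).1, (stateG nE dE nP dP c s₀).2, ⟨s₀, rfl⟩, ?_, ?_⟩
  · obtain ⟨ω, h1, h2⟩ := hE.exists_le (s₀ := s₀) (y := cmp c (stateG nE dE nP dP c s₀).1)
      (v := 2 ^ ((stateG nE dE nP dP c s₀).1 + (stateG nE dE nP dP c s₀).2)) (by
      intro s hs
      have e1 := hs₀ s hs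
      have e2 := hs₀ (s + 1) (by omega)
      rcases stateG_succ nE dE nP dP c s with ⟨h, _⟩ | ⟨h, _⟩ | ⟨_, h, _⟩
      · rw [e1, e2] at h
        have := congrArg Prod.fst h
        simp at this
      · rw [e1, e2] at h
        have := congrArg Prod.snd h
        simp at this
      · rw [e1] at h; exact h)
    refine ⟨ω, h1, ?_⟩
    push_cast at h2
    exact h2
  · obtain ⟨ω, h1, h2⟩ := hP.exists_le (s₀ := s₀)
      (y := tgt c (stateG nE dE nP dP c s₀).1 (stateG nE dE nP dP c s₀).2)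
      (v := 2 ^ (kk c + (stateG nE dE nP dP c s₀).1 - c)) (by
      intro s hs
      have e1 := hs₀ s hs
      have e2 := hs₀ (s + 1) (by omega)
      rcases stateG_succ nE dE nP dP c s with ⟨h, _⟩ | ⟨h, _⟩ | ⟨_, _, h⟩
      · rw [e1, e2] at h
        have := congrArg Prod.fst h
        simp at this
      · rw [e1, e2] at h
        have := congrArg Prod.snd h
        simp at this
      · rw [e1] at h; exact h)
    refine ⟨ω, h1, ?_⟩
    push_cast at h2
    exact h2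

end Pool.Agent.Rand
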