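import Mathlib

/-!
# Randomness tests on Cantor space

Definitions used in the statement about the two randomness deficiencies.
-/

open MeasureTheory
open scoped ENNReal NNReal

namespace Pool.Agent.Rand

/-- Cantor space, the space of infinite binary sequences. -/
abbrev Cantor : Type := ℕ → Bool

/-- The uniform Bernoulli measure on Cantor space: the product of countably many fair coins. -/
noncomputable def unif : Measure Cantor :=
  Measure.infinitePi (fun _ : ℕ => (PMF.uniformOfFintype Bool).toMeasure)

/-- The string of the first `n` bits of `ω`. -/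
def initSeg (ω : Cantor) (n : ℕ) : List Bool := (List.range n).map ω

/-- A function on Cantor space is lower semicomputable if it is the supremum of a computable
nondecreasing sequence of approximations: the approximation at stage `s` is a nonnegative rational
number computed from `s` and from the first `s` bits of the argument. -/
def LowerSemicomputable (f : Cantor → ℝ≥0∞) : Prop :=
  ∃ num den : ℕ → List Bool → ℕ, Computable₂ num ∧ Computable₂ den ∧
    (∀ ω : Cantor, Monotone fun s : ℕ =>
      (num s (initSeg ω s) : ℝ≥0∞) / ((den s (initSeg ω s) : ℝ≥0∞) + 1)) ∧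
    ∀ ω : Cantor, f ω =
      ⨆ s : ℕ, (num s (initSeg ω s) : ℝ≥0∞) / ((den s (initSeg ω s) : ℝ≥0∞) + 1)

/-- An expectation-bounded test: lower semicomputable with finite integral. -/
def IsExpectationTest (f : Cantor → ℝ≥0∞) : Prop :=
  LowerSemicomputable f ∧ ∫⁻ ω, f ω ∂unif < ∞

/-- A probability-bounded test: lower semicomputable with `P {f ≥ c} ≤ 1 / c` for all `c > 0`. -/
def IsProbabilityTest (f : Cantor → ℝ≥0∞) : Prop :=
  LowerSemicomputable f ∧
    ∀ c : ℝ≥0, 0 < c → unif {ω : Cantor | (c : ℝ≥0∞) ≤ f ω} ≤ 1 / (c : ℝ≥0∞)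

/-- `t` is universal in a class `T` of tests: it belongs to the class and is maximal in it up to a
constant factor. -/
def IsUniversal (T : (Cantor → ℝ≥0∞) → Prop) (t : Cantor → ℝ≥0∞) : Prop :=
  T t ∧ ∀ f : Cantor → ℝ≥0∞, T f → ∃ C : ℝ≥0, ∀ ω : Cantor, f ω ≤ (C : ℝ≥0∞) * t ω

/-- The deficiency of a test: its binary logarithm, an extended real number. -/
noncomputable def deficiency (t : Cantor → ℝ≥0∞) (ω : Cantor) : EReal :=
  ENNReal.log (t ω) / ((Real.log 2 : ℝ) : EReal)

/-- A Martin-Löf test: a uniformly effectively open sequence of sets `U n` with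
`P (U n) ≤ 2 ^ (-n)`. -/
def IsMartinLofTest (U : ℕ → Set Cantor) : Prop :=
  (∃ W : ℕ × List Bool → Prop, REPred W ∧
    ∀ n : ℕ, U n = {ω : Cantor | ∃ k : ℕ, W (n, initSeg ω k)}) ∧
  ∀ n : ℕ, unif (U n) ≤ (1 / 2 : ℝ≥0∞) ^ n

/-- A sequence is Martin-Löf random if it lies outside the intersection of every Martin-Löf
test. -/
def MartinLofRandom (ω : Cantor) : Prop :=
  ∀ U : ℕ → Set Cantor, IsMartinLofTest U → ∃ n : ℕ, ω ∉ U n

end Pool.Agent.Rand
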