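import Pool.Agent.Rand.Final

open MeasureTheory
open scoped ENNReal NNReal

namespace Pool.Agent.Rand

/-! ### Suprema of computable sequences of rational functions -/

/-- the rational number coded by a pair -/
noncomputable def qv (p : ℕ × ℕ) : ℝ≥0∞ := (p.1 : ℝ≥0∞) / ((p.2 : ℝ≥0∞) + 1)

lemma qv_lt_iff (p q : ℕ × ℕ) : qv p < qv q ↔ p.1 * (q.2 + 1) < q.1 * (p.2 + 1) := by
  unfold qv
  have h1 : ((p.2 : ℝ≥0∞) + 1) ≠ 0 := by simp
  have h2 : ((p.2 : ℝ≥0∞) + 1) ≠ ∞ := ENNReal.add_ne_top.2
    ⟨ENNReal.natCast_ne_top _, ENNReal.one_ne_top⟩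
  have h3 : ((q.2 : ℝ≥0∞) + 1) ≠ 0 := by simp
  have h4 : ((q.2 : ℝ≥0∞) + 1) ≠ ∞ := ENNReal.add_ne_top.2
    ⟨ENNReal.natCast_ne_top _, ENNReal.one_ne_top⟩
  rw [ENNReal.lt_div_iff_mul_lt (Or.inl h3) (Or.inl h4), ← ENNReal.mul_div_right_comm,
    ENNReal.div_lt_iff (Or.inl h1) (Or.inl h2)]
  norm_cast

/-- keep the larger of two coded rationals -/
def better (acc q : ℕ × ℕ) : ℕ × ℕ :=
  bif decide (acc.1 * (q.2 + 1) < q.1 * (acc.2 + 1)) then q else acc

lemma qv_better (acc q : ℕ × ℕ) (B : ℝ≥0∞) : qv (better acc q) ≤ B ↔ qv acc ≤ B ∧ qv q ≤ B := by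
  unfold better
  by_cases h : acc.1 * (q.2 + 1) < q.1 * (acc.2 + 1)
  · rw [decide_eq_true h, cond_true]
    have := (qv_lt_iff acc q).2 h
    exact ⟨fun hq => ⟨this.le.trans hq, hq⟩, fun hq => hq.2⟩
  · rw [decide_eq_false h, cond_false]
    have := not_lt.1 (fun h' => h ((qv_lt_iff acc q).1 h'))
    exact ⟨fun hq => ⟨hq, this.trans hq⟩, fun hq => hq.1⟩

lemma qv_foldl_better {ι : Type*} (l : List ι) (g : ι → ℕ × ℕ) (a : ℕ × ℕ) (B : ℝ≥0∞) :
    qv (l.foldl (fun acc t => better acc (g t)) a) ≤ B ↔ qv a ≤ B ∧ ∀ t ∈ l, qv (g t) ≤ B := by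
  induction l generalizing a with
  | nil => simp
  | cons x t ih =>
    rw [List.foldl_cons, ih, qv_better]
    simp only [List.mem_cons, forall_eq_or_imp]
    tauto

/-- the supremum of a computable sequence of rational functions is lower semicomputable -/
lemma lsc_iSup {num den : ℕ → List Bool → ℕ} (hn : Computable₂ num) (hd : Computable₂ den) :
    LowerSemicomputable (fun ω => ⨆ t, qv (num t (initSeg ω t), den t (initSeg ω t))) := by
  let best : ℕ → List Bool → ℕ × ℕ := fun s x =>
    (List.range (s + 1)).foldl (fun acc t => better acc (num t (x.take t), den t (x.take t))) (0, 0)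
  have hbest : Computable₂ best := by
    refine computable_foldl (f := fun a : ℕ × List Bool => List.range (a.1 + 1))
      (g := fun _ => ((0 : ℕ), (0 : ℕ)))
      (h := fun a acc t => better acc (num t (a.2.take t), den t (a.2.take t))) ?_
      (Computable.const _) ?_
    · exact Primrec.list_range.to_comp.comp (comp_succ Computable.fst)
    · -- p : (ℕ × List Bool) × (ℕ × ℕ) × ℕ
      have ht : Computable (fun p : (ℕ × List Bool) × (ℕ × ℕ) × ℕ => p.2.2) :=
        Computable.snd.comp Computable.snd
      have hx : Computable (fun p : (ℕ × List Bool) × (ℕ × ℕ) × ℕ => p.1.2.take p.2.2) :=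
        comp_take ht (Computable.snd.comp Computable.fst)
      have ha : Computable (fun p : (ℕ × List Bool) × (ℕ × ℕ) × ℕ => p.2.1) :=
        Computable.fst.comp Computable.snd
      have h1 := hn.comp ht hx
      have h2 := hd.comp ht hx
      unfold better
      refine Computable.cond (comp_lt (comp_mul (Computable.fst.comp ha) (comp_succ h2))
        (comp_mul h1 (comp_succ (Computable.snd.comp ha)))) (h1.pair h2) ha
  have key : ∀ ω s B, qv (best s (initSeg ω s)) ≤ B ↔
      ∀ t ≤ s, qv (num t (initSeg ω t), den t (initSeg ω t)) ≤ B := by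
    intro ω s B
    show qv ((List.range (s + 1)).foldl _ _) ≤ B ↔ _
    rw [qv_foldl_better]
    constructor
    · rintro ⟨_, h⟩ t ht
      have := h t (List.mem_range.2 (by omega))
      rwa [take_initSeg ω ht] at this
    · intro h
      refine ⟨by simp [qv], fun t ht => ?_⟩
      have ht' : t ≤ s := by have := List.mem_range.1 ht; omega
      rw [take_initSeg ω ht']
      exact h t ht'
  refine ⟨fun s x => (best s x).1, fun s x => (best s x).2, Computable.fst.comp hbest,
    Computable.snd.comp hbest, ?_, ?_⟩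
  · intro ω s t hst
    show qv (best s (initSeg ω s)) ≤ qv (best t (initSeg ω t))
    rw [key]
    intro u hu
    exact (key ω t _).1 le_rfl u (hu.trans hst)
  · intro ω
    show _ = ⨆ s, qv (best s (initSeg ω s))
    apply le_antisymm
    · refine iSup_le (fun t => ?_)
      exact le_iSup_of_le t ((key ω t _).1 le_rfl t le_rfl)
    · refine iSup_le (fun s => ?_)
      rw [key]
      intro t _
      exact le_iSup (fun t => qv (num t (initSeg ω t), den t (initSeg ω t))) t

/-! ### Enumeration of all lower semicomputable functions -/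

/-- contribution of the value at `(s', y)` of the `e`-th partial function, at stage `s` -/
def ev (e s s' : ℕ) (y : List Bool) : ℕ :=
  ((Nat.Partrec.Code.evaln s (Denumerable.ofNat Nat.Partrec.Code e)
    (Encodable.encode (s', y))).map
      (fun r => 2 ^ s * r.unpair.1 / (r.unpair.2 + 1))).getD 0

/-- the approximation at stage `s` of the `e`-th lower semicomputable function, times `2 ^ s` -/
def hv (e s : ℕ) (x : List Bool) : ℕ :=
  (List.range (s + 1)).foldl (fun acc s' => max acc (ev e s s' (x.take s'))) 0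

/-- the approximation at stage `s` of the `e`-th lower semicomputable function -/
noncomputable def Fv (e s : ℕ) (ω : Cantor) : ℝ≥0∞ := (hv e s (initSeg ω s) : ℝ≥0∞) / 2 ^ s

lemma computable_ev {α : Type*} [Primcodable α] {e s s' : α → ℕ} {y : α → List Bool}
    (he : Computable e) (hs : Computable s) (hs' : Computable s') (hy : Computable y) :
    Computable (fun a => ev (e a) (s a) (s' a) (y a)) := by
  unfold ev
  have h1 : Computable (fun a => Nat.Partrec.Code.evaln (s a)
      (Denumerable.ofNat Nat.Partrec.Code (e a)) (Encodable.encode (s' a, y a))) :=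
    Nat.Partrec.Code.primrec_evaln.to_comp.comp
      ((hs.pair ((Computable.ofNat _).comp he)).pair (Computable.encode.comp (hs'.pair hy)))
  refine Computable.option_getD (Computable.option_map h1 ?_) (Computable.const 0)
  have hr : Computable (fun p : α × ℕ => p.2.unpair) := Computable.unpair.comp Computable.snd
  exact (Primrec.nat_div.to_comp).comp
    (comp_mul (comp_pow (Computable.const 2) (hs.comp Computable.fst)) (Computable.fst.comp hr))
    (comp_succ (Computable.snd.comp hr))

lemma computable_hv {α : Type*} [Primcodable α] {e s : α → ℕ} {x : α → List Bool}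
    (he : Computable e) (hs : Computable s) (hx : Computable x) :
    Computable (fun a => hv (e a) (s a) (x a)) := by
  unfold hv
  refine computable_foldl (f := fun a => List.range (s a + 1)) (g := fun _ => 0)
    (h := fun a acc s' => max acc (ev (e a) (s a) s' ((x a).take s')))
    (Primrec.list_range.to_comp.comp (comp_succ hs)) (Computable.const 0) ?_
  have h2 : Computable (fun p : α × ℕ × ℕ => p.2.2) := Computable.snd.comp Computable.snd
  exact comp_max (Computable.fst.comp Computable.snd)
    (computable_ev (he.comp Computable.fst) (hs.comp Computable.fst) h2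
      (comp_take h2 (hx.comp Computable.fst)))

lemma hv_le_iff {e s : ℕ} {x : List Bool} {B : ℕ} :
    hv e s x ≤ B ↔ ∀ s' ≤ s, ev e s s' (x.take s') ≤ B := by
  unfold hv
  rw [foldl_max_le]
  simp

lemma ev_mono (e s s' : ℕ) (y : List Bool) : 2 * ev e s s' y ≤ ev e (s + 1) s' y := by
  unfold ev
  rcases h : Nat.Partrec.Code.evaln s (Denumerable.ofNat Nat.Partrec.Code e)
    (Encodable.encode (s', y)) with _ | r
  · simp
  · have h1 : r ∈ Nat.Partrec.Code.evaln s (Denumerable.ofNat Nat.Partrec.Code e)
      (Encodable.encode (s', y)) := h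
    have h2 := Nat.Partrec.Code.evaln_mono (Nat.le_succ s) h1
    have h3 : Nat.Partrec.Code.evaln (s + 1) (Denumerable.ofNat Nat.Partrec.Code e)
      (Encodable.encode (s', y)) = some r := h2
    rw [h3]
    simp only [Option.map_some, Option.getD_some]
    rw [pow_succ, mul_comm (2 ^ s) 2, mul_assoc]
    exact Nat.mul_div_le_mul_div_assoc 2 (2 ^ s * r.unpair.1) (r.unpair.2 + 1)

lemma hv_mono (e s : ℕ) (ω : Cantor) :
    2 * hv e s (initSeg ω s) ≤ hv e (s + 1) (initSeg ω (s + 1)) := by
  have h1 : hv e s (initSeg ω s) ≤ hv e (s + 1) (initSeg ω (s + 1)) / 2 := by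
    rw [hv_le_iff]
    intro s' hs'
    rw [take_initSeg ω hs', Nat.le_div_iff_mul_le (by norm_num), mul_comm]
    refine (ev_mono e s s' _).trans ?_
    have := (hv_le_iff (e := e) (s := s + 1) (x := initSeg ω (s + 1))
      (B := hv e (s + 1) (initSeg ω (s + 1)))).1 le_rfl s' (by omega)
    rwa [take_initSeg ω (by omega)] at this
  omega

lemma Fv_succ (e s : ℕ) (ω : Cantor) : Fv e s ω ≤ Fv e (s + 1) ω := by
  unfold Fv
  rw [pow_succ, ENNReal.div_le_iff (by positivity) (by simp), mul_comm (2 ^ s : ℝ≥0∞) 2,
    div_eq_mul_inv, ENNReal.mul_inv (by simp) (by simp), mul_assoc, mul_assoc,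
    ENNReal.inv_mul_cancel (by positivity) (by simp), mul_one, ← div_eq_mul_inv,
    ENNReal.le_div_iff_mul_le (by simp) (by simp)]
  have := hv_mono e s ω
  rw [mul_comm] at this
  exact_mod_cast this

lemma Fv_mono (e : ℕ) (ω : Cantor) : Monotone (fun s => Fv e s ω) :=
  monotone_nat_of_le_succ (fun s => Fv_succ e s ω)

lemma measurable_Fv (e s : ℕ) : Measurable (Fv e s) :=
  measurable_comp_initSeg (fun x => (hv e s x : ℝ≥0∞) / 2 ^ s) s

end Pool.Agent.Rand
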