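import Pool.Agent.Rand.Exist

open MeasureTheory
open scoped ENNReal NNReal

namespace Pool.Agent.Rand

/-- if the `e`-th partial function is total then the approximations converge to the right limit -/
lemma Fv_iSup {e : ℕ} {r : ℕ × List Bool → ℕ}
    (he : ∀ a, r a ∈ Nat.Partrec.Code.eval (Denumerable.ofNat Nat.Partrec.Code e)
      (Encodable.encode a)) (ω : Cantor) :
    ⨆ s, Fv e s ω = ⨆ s, qv (r (s, initSeg ω s)).unpair := by
  apply le_antisymm
  · refine iSup_le (fun s => ?_)
    have key : ∃ s' ≤ s, hv e s (initSeg ω s) ≤ ev e s s' (initSeg ω s') := by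
      by_contra hcon
      push Not at hcon
      have hpos : 0 < hv e s (initSeg ω s) := lt_of_le_of_lt (Nat.zero_le _)
        (hcon 0 (Nat.zero_le _))
      have : hv e s (initSeg ω s) ≤ hv e s (initSeg ω s) - 1 := by
        rw [hv_le_iff]
        intro s' hs'
        rw [take_initSeg ω hs']
        have := hcon s' hs'
        omega
      omega
    obtain ⟨s', _, h⟩ := key
    refine le_iSup_of_le s' ?_
    have h1 : (hv e s (initSeg ω s) : ℝ≥0∞) ≤ (ev e s s' (initSeg ω s') : ℝ≥0∞) := by
      exact_mod_cast h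
    unfold Fv
    refine (ENNReal.div_le_div_right h1 _).trans ?_
    unfold ev
    rcases h : Nat.Partrec.Code.evaln s (Denumerable.ofNat Nat.Partrec.Code e)
      (Encodable.encode (s', initSeg ω s')) with _ | r'
    · simp
    · have h2 : r' ∈ Nat.Partrec.Code.eval (Denumerable.ofNat Nat.Partrec.Code e)
        (Encodable.encode (s', initSeg ω s')) := Nat.Partrec.Code.evaln_sound h
      have h3 : r' = r (s', initSeg ω s') := Part.mem_unique h2 (he _)
      subst h3
      simp only [Option.map_some, Option.getD_some]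
      set p := (r (s', initSeg ω s')).unpair
      unfold qv
      have hq0 : ((p.2 : ℝ≥0∞) + 1) ≠ 0 := by simp
      have hq1 : ((p.2 : ℝ≥0∞) + 1) ≠ ∞ := ENNReal.add_ne_top.2
        ⟨ENNReal.natCast_ne_top _, ENNReal.one_ne_top⟩
      rw [ENNReal.div_le_iff (by positivity) (by simp), ← ENNReal.mul_div_right_comm,
        ENNReal.le_div_iff_mul_le (Or.inl hq0) (Or.inl hq1)]
      have h4 : 2 ^ s * p.1 / (p.2 + 1) * (p.2 + 1) ≤ p.1 * 2 ^ s := by
        rw [mul_comm p.1]
        exact Nat.div_mul_le_self _ _
      exact_mod_cast h4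
  · refine iSup_le (fun s' => ?_)
    refine ENNReal.le_of_forall_pos_le_add (fun ε hε hfin => ?_)
    obtain ⟨k, hk⟩ := Nat.Partrec.Code.evaln_complete.1 (he (s', initSeg ω s'))
    obtain ⟨n, hn⟩ := ENNReal.exists_inv_two_pow_lt (a := (ε : ℝ≥0∞)) (by simpa using hε.ne')
    set s := max n (max k s') with hs
    have h1 : Nat.Partrec.Code.evaln s (Denumerable.ofNat Nat.Partrec.Code e)
      (Encodable.encode (s', initSeg ω s')) = some (r (s', initSeg ω s')) :=
      Nat.Partrec.Code.evaln_mono (by omega) hk
    set p := (r (s', initSeg ω s')).unpair with hp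
    have h2 : 2 ^ s * p.1 / (p.2 + 1) ≤ hv e s (initSeg ω s) := by
      have h3 := (hv_le_iff (e := e) (s := s) (x := initSeg ω s)
        (B := hv e s (initSeg ω s))).1 le_rfl s' (by omega)
      rw [take_initSeg ω (by omega)] at h3
      unfold ev at h3
      rw [h1] at h3
      simpa using h3
    have h3 : 2 ^ s * p.1 ≤ (hv e s (initSeg ω s) + 1) * (p.2 + 1) := by
      have h4 : 2 ^ s * p.1 < (2 ^ s * p.1 / (p.2 + 1) + 1) * (p.2 + 1) := by
        rw [mul_comm (2 ^ s * p.1 / (p.2 + 1) + 1) (p.2 + 1)]
        exact Nat.lt_mul_div_succ _ (Nat.succ_pos _)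
      refine h4.le.trans ?_
      gcongr
    have h5 : qv p ≤ Fv e s ω + (2 ^ s : ℝ≥0∞)⁻¹ := by
      unfold qv Fv
      have hq0 : ((p.2 : ℝ≥0∞) + 1) ≠ 0 := by simp
      have hq1 : ((p.2 : ℝ≥0∞) + 1) ≠ ∞ := ENNReal.add_ne_top.2
        ⟨ENNReal.natCast_ne_top _, ENNReal.one_ne_top⟩
      rw [← one_div, ← ENNReal.add_div, ENNReal.div_le_iff hq0 hq1,
        ← ENNReal.mul_div_right_comm, ENNReal.le_div_iff_mul_le (by simp) (by simp), mul_comm]
      exact_mod_cast h3
    refine h5.trans (add_le_add (le_iSup (fun s => Fv e s ω) s) ?_)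
    refine le_trans ?_ hn.le
    rw [← ENNReal.inv_pow, ENNReal.inv_le_inv]
    exact pow_le_pow_right₀ (by norm_num) (by omega)

/-- every lower semicomputable function is a limit of our approximations -/
lemma exists_index {f : Cantor → ℝ≥0∞} (hf : LowerSemicomputable f) :
    ∃ e, ∀ ω, f ω = ⨆ s, Fv e s ω := by
  obtain ⟨num, den, hn, hd, _, hs⟩ := hf
  have hr : Computable (fun a : ℕ × List Bool => Nat.pair (num a.1 a.2) (den a.1 a.2)) :=
    (Primrec₂.natPair.to_comp).comp hn hd
  obtain ⟨c, hc⟩ := Nat.Partrec.Code.exists_code.1 (Partrec.bind_decode₂_iff.1 hr.partrec)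
  refine ⟨Encodable.encode c, fun ω => ?_⟩
  have he : ∀ a : ℕ × List Bool, Nat.pair (num a.1 a.2) (den a.1 a.2) ∈
      Nat.Partrec.Code.eval (Denumerable.ofNat Nat.Partrec.Code (Encodable.encode c))
        (Encodable.encode a) := by
    intro a
    rw [Denumerable.ofNat_encode, hc]
    simp
  rw [Fv_iSup he ω, hs ω]
  simp only [Nat.unpair_pair]
  rfl

/-! ### Integrals of functions of finitely many coordinates -/

lemma nodup_allStr (n : ℕ) : (allStr n).Nodup := by
  induction n with
  | zero => simp [allStr]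
  | succ n ih =>
    unfold allStr
    rw [List.nodup_flatMap]
    refine ⟨fun x _ => by simp, ?_⟩
    refine ih.imp ?_
    intro x y hxy
    rw [Function.onFun, List.disjoint_left]
    intro z hz hz'
    simp only [List.mem_cons, List.not_mem_nil, or_false] at hz hz'
    apply hxy
    rcases hz with rfl | rfl <;> rcases hz' with h | h <;>
      · have := List.append_inj_left' h rfl
        exact this

lemma lintegral_initSeg (G : List Bool → ℝ≥0∞) (s : ℕ) :
    ∫⁻ ω, G (initSeg ω s) ∂unif = ((allStr s).map G).sum * (1 / 2) ^ s := by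
  classical
  rw [← List.sum_toFinset _ (nodup_allStr s), Finset.sum_mul]
  have h1 : ∀ ω, G (initSeg ω s) =
      ∑ x ∈ (allStr s).toFinset, (cyl x).indicator (fun _ => G x) ω := by
    intro ω
    rw [Finset.sum_eq_single (initSeg ω s)]
    · rw [Set.indicator_of_mem]
      rw [mem_cyl, length_initSeg]
    · intro x hx hne
      rw [Set.indicator_of_notMem]
      intro hmem
      apply hne
      rw [List.mem_toFinset, mem_allStr] at hx
      rw [mem_cyl, hx] at hmem
      exact hmem.symm
    · intro h
      exfalso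
      apply h
      rw [List.mem_toFinset, mem_allStr, length_initSeg]
  simp_rw [h1]
  rw [lintegral_finsetSum _ (fun x _ => measurable_const.indicator (measurableSet_cyl x))]
  refine Finset.sum_congr rfl (fun x hx => ?_)
  rw [List.mem_toFinset, mem_allStr] at hx
  rw [lintegral_indicator_const (measurableSet_cyl _), unif_cyl, hx]

lemma unif_initSeg (p : List Bool → Prop) [DecidablePred p] (s : ℕ) :
    unif {ω | p (initSeg ω s)} = (((allStr s).countP (fun x => decide (p x)) : ℕ) : ℝ≥0∞) *
      (1 / 2) ^ s := by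
  have h := lintegral_initSeg (fun x => if p x then 1 else 0) s
  have h2 : ∫⁻ ω, (if p (initSeg ω s) then 1 else 0 : ℝ≥0∞) ∂unif = unif {ω | p (initSeg ω s)} := by
    rw [← lintegral_indicator_one (measurableSet_initSeg p s)]
    congr 1
    ext ω
    by_cases hp : p (initSeg ω s)
    · rw [if_pos hp, Set.indicator_of_mem (by exact hp)]; rfl
    · rw [if_neg hp, Set.indicator_of_notMem (by exact hp)]
  rw [← h2, h]
  congr 1
  induction allStr s with
  | nil => simp
  | cons x t ih =>
    rw [List.map_cons, List.sum_cons, ih, List.countP_cons]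
    by_cases hp : p x
    · simp [hp, add_comm]
    · simp [hp]

end Pool.Agent.Rand
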