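import Pool.Agent.Rand.Exist2

open MeasureTheory
open scoped ENNReal NNReal

namespace Pool.Agent.Rand

/-- the list of values of the approximation at stage `s` -/
def vals (e s : ℕ) : List ℕ := (allStr s).map (hv e s)

/-- mapping a computable function over a computable list -/
theorem computable_map {α β σ : Type*} [Primcodable α] [Primcodable β] [Primcodable σ]
    {f : α → List β} {g : α → β → σ} (hf : Computable f) (hg : Computable₂ g) :
    Computable (fun a => (f a).map (g a)) := by
  have h : Computable (fun a => (f a).foldl (fun acc b => acc ++ [g a b]) []) := by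
    refine computable_foldl (g := fun _ => []) (h := fun a acc b => acc ++ [g a b]) hf
      (Computable.const []) ?_
    have h1 : Computable (fun q : α × List σ × β => g q.1 q.2.2) :=
      hg.comp Computable.fst (Computable.snd.comp Computable.snd)
    exact Computable.list_concat.comp (Computable.fst.comp Computable.snd) h1
  refine h.of_eq ?_
  intro a
  generalize f a = l
  have : ∀ (l : List β) (acc : List σ),
      l.foldl (fun acc b => acc ++ [g a b]) acc = acc ++ l.map (g a) := by
    intro l
    induction l with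
    | nil => intro acc; simp
    | cons x t ih =>
      intro acc
      rw [List.foldl_cons, ih, List.map_cons]
      simp
  rw [this]
  simp

lemma computable_vals {α : Type*} [Primcodable α] {e s : α → ℕ} (he : Computable e)
    (hs : Computable s) : Computable (fun a => vals (e a) (s a)) := by
  unfold vals
  exact computable_map (f := fun a => allStr (s a)) (g := fun a x => hv (e a) (s a) x)
    (primrec_allStr.to_comp.comp hs)
    (computable_hv (he.comp Computable.fst) (hs.comp Computable.fst) Computable.snd)

/-- the weighted supremum of all good approximations -/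
noncomputable def univ (good : ℕ → List ℕ → Bool) (ω : Cantor) : ℝ≥0∞ :=
  ⨆ e, ⨆ s, ⨆ (_ : good s (vals e s) = true), Fv e s ω / 2 ^ (e + 1)

lemma univ_lsc {good : ℕ → List ℕ → Bool} (hg : Computable₂ good) :
    LowerSemicomputable (univ good) := by
  let num : ℕ → List Bool → ℕ := fun t x =>
    bif good t.unpair.2 (vals t.unpair.1 t.unpair.2) then
      hv t.unpair.1 t.unpair.2 (x.take t.unpair.2) else 0
  let den : ℕ → List Bool → ℕ := fun t _ => 2 ^ (t.unpair.2 + t.unpair.1 + 1) - 1
  have hn : Computable₂ num := by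
    have ht : Computable (fun a : ℕ × List Bool => a.1.unpair) :=
      Computable.unpair.comp Computable.fst
    have he := Computable.fst.comp ht
    have hs := Computable.snd.comp ht
    exact Computable.cond (hg.comp hs (computable_vals he hs))
      (computable_hv he hs (comp_take hs Computable.snd)) (Computable.const 0)
  have hd : Computable₂ den := by
    have ht : Computable (fun a : ℕ × List Bool => a.1.unpair) :=
      Computable.unpair.comp Computable.fst
    have he := Computable.fst.comp ht
    have hs := Computable.snd.comp ht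
    exact comp_sub (comp_pow (Computable.const 2) (comp_succ (comp_add hs he)))
      (Computable.const 1)
  have h := lsc_iSup hn hd
  have heq : univ good = fun ω => ⨆ t, qv (num t (initSeg ω t), den t (initSeg ω t)) := by
    funext ω
    have hval : ∀ t : ℕ, qv (num t (initSeg ω t), den t (initSeg ω t)) =
        ⨆ (_ : good t.unpair.2 (vals t.unpair.1 t.unpair.2) = true),
          Fv t.unpair.1 t.unpair.2 ω / 2 ^ (t.unpair.1 + 1) := by
      intro t
      by_cases hgood : good t.unpair.2 (vals t.unpair.1 t.unpair.2) = true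
      · rw [iSup_pos hgood]
        show qv (bif good t.unpair.2 (vals t.unpair.1 t.unpair.2) then _ else 0, _) = _
        rw [hgood, cond_true, take_initSeg ω (Nat.unpair_right_le t)]
        unfold qv Fv
        have e1 : (((2 ^ (t.unpair.2 + t.unpair.1 + 1) - 1 : ℕ) : ℝ≥0∞) + 1) =
            2 ^ t.unpair.2 * 2 ^ (t.unpair.1 + 1) := by
          have : 2 ^ (t.unpair.2 + t.unpair.1 + 1) - 1 + 1 = 2 ^ (t.unpair.2 + t.unpair.1 + 1) :=
            Nat.sub_add_cancel Nat.one_le_two_pow
          rw [← pow_add, ← add_assoc]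
          exact_mod_cast this
        show _ / (((2 ^ (t.unpair.2 + t.unpair.1 + 1) - 1 : ℕ) : ℝ≥0∞) + 1) = _
        rw [e1, div_eq_mul_inv, div_eq_mul_inv, div_eq_mul_inv,
          ENNReal.mul_inv (by simp) (by simp), mul_assoc]
      · rw [iSup_neg hgood]
        have hgood' : good t.unpair.2 (vals t.unpair.1 t.unpair.2) = false := by
          simpa using hgood
        show qv (bif good t.unpair.2 (vals t.unpair.1 t.unpair.2) then _ else 0, _) = _
        rw [hgood', cond_false]
        simp [qv]
    simp_rw [hval]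
    unfold univ
    apply le_antisymm
    · refine iSup_le (fun e => iSup_le (fun s => ?_))
      refine le_iSup_of_le (Nat.pair e s) ?_
      simp only [Nat.unpair_pair]
      exact le_rfl
    · refine iSup_le (fun t => ?_)
      exact le_iSup_of_le t.unpair.1 (le_iSup_of_le t.unpair.2 le_rfl)
  rw [heq]
  exact h

/-- general existence principle for universal tests -/
theorem exists_universal {Test Bd : (Cantor → ℝ≥0∞) → Prop} {good : ℕ → List ℕ → Bool}
    (hg : Computable₂ good)
    (hgood : ∀ e s, good s (vals e s) = true ↔ Bd (Fv e s))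
    (hmono : ∀ f g : Cantor → ℝ≥0∞, (∀ ω, f ω ≤ g ω) → Bd g → Bd f)
    (hsup : Test (univ good) ∨ ¬ LowerSemicomputable (univ good))
    (htest : ∀ f, Test f → LowerSemicomputable f ∧ ∃ M : ℕ, 0 < M ∧ Bd (fun ω => f ω / M)) :
    ∃ t, IsUniversal Test t := by
  refine ⟨univ good, ?_, ?_⟩
  · rcases hsup with h | h
    · exact h
    · exact absurd (univ_lsc hg) h
  · intro f hf
    obtain ⟨hl, M, hM, hB⟩ := htest f hf
    obtain ⟨e, he⟩ := exists_index (lsc_div hl hM)
    have h1 : ∀ s, good s (vals e s) = true := by
      intro s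
      rw [hgood]
      refine hmono _ _ (fun ω => ?_) hB
      rw [he ω]
      exact le_iSup (fun s => Fv e s ω) s
    refine ⟨M * 2 ^ (e + 1), fun ω => ?_⟩
    have hM0 : (M : ℝ≥0∞) ≠ 0 := by simp; omega
    have h2 : f ω / M ≤ 2 ^ (e + 1) * univ good ω := by
      have h2 := he ω
      rw [h2]
      refine iSup_le (fun s => ?_)
      have h3 : Fv e s ω / 2 ^ (e + 1) ≤ univ good ω := by
        unfold univ
        refine le_iSup_of_le e (le_iSup_of_le s ?_)
        rw [iSup_pos (h1 s)]
      rw [ENNReal.div_le_iff (by positivity) (by simp)] at h3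
      rwa [mul_comm]
    rw [ENNReal.div_le_iff hM0 (ENNReal.natCast_ne_top M)] at h2
    calc f ω ≤ 2 ^ (e + 1) * univ good ω * M := h2
      _ = ((M * 2 ^ (e + 1) : ℝ≥0) : ℝ≥0∞) * univ good ω := by push_cast; ring

/-! ### The expectation-bounded case -/

/-- decidable form of `∫ ≤ 1` -/
def goodE (s : ℕ) (l : List ℕ) : Bool := decide (l.foldl (fun acc v => acc + v) 0 ≤ 4 ^ s)

lemma computable_goodE : Computable₂ goodE := by
  unfold goodE
  refine comp_le ?_ (comp_pow (Computable.const 4) Computable.fst)
  refine computable_foldl (f := fun a : ℕ × List ℕ => a.2) (g := fun _ => 0)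
    (h := fun _ acc v => acc + v) Computable.snd (Computable.const 0) ?_
  exact comp_add (Computable.fst.comp Computable.snd) (Computable.snd.comp Computable.snd)

lemma lintegral_Fv (e s : ℕ) :
    ∫⁻ ω, Fv e s ω ∂unif = (((vals e s).sum : ℕ) : ℝ≥0∞) / 4 ^ s := by
  unfold Fv
  rw [lintegral_initSeg (fun x => (hv e s x : ℝ≥0∞) / 2 ^ s) s]
  unfold vals
  have h1 : ((allStr s).map (fun x => (hv e s x : ℝ≥0∞) / 2 ^ s)).sum =
      ((((allStr s).map (hv e s)).sum : ℕ) : ℝ≥0∞) / 2 ^ s := by
    induction allStr s with
    | nil => simp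
    | cons x t ih =>
      rw [List.map_cons, List.sum_cons, ih, List.map_cons, List.sum_cons]
      push_cast
      rw [ENNReal.add_div]
  rw [h1, one_div, ← ENNReal.inv_pow, div_eq_mul_inv, div_eq_mul_inv,
    mul_assoc, ← ENNReal.mul_inv (by simp) (by simp), ← mul_pow]
  norm_num

lemma foldl_add_eq_sum (l : List ℕ) : l.foldl (fun acc v => acc + v) 0 = l.sum := by
  have : ∀ (l : List ℕ) (a : ℕ), l.foldl (fun acc v => acc + v) a = a + l.sum := by
    intro l
    induction l with
    | nil => intro a; simp
    | cons x t ih => intro a; rw [List.foldl_cons, ih, List.sum_cons]; ring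
  rw [this, zero_add]

lemma goodE_iff (e s : ℕ) : goodE s (vals e s) = true ↔ ∫⁻ ω, Fv e s ω ∂unif ≤ 1 := by
  unfold goodE
  rw [decide_eq_true_iff, foldl_add_eq_sum, lintegral_Fv,
    ENNReal.div_le_iff (by positivity) (by simp), one_mul]
  norm_cast

/-- the sum of the weights `2 ^ -(e + 1)` -/
lemma tsum_weights : ∑' e : ℕ, (2 ^ (e + 1) : ℝ≥0∞)⁻¹ = 1 := by
  have h : ∀ e : ℕ, (2 ^ (e + 1) : ℝ≥0∞)⁻¹ = 2⁻¹ * (2⁻¹) ^ e := by
    intro e
    rw [← ENNReal.inv_pow, pow_succ, mul_comm, ENNReal.mul_inv (by simp) (by simp)]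
  simp_rw [h]
  rw [ENNReal.tsum_mul_left, ENNReal.tsum_geometric]
  have : (1 - 2⁻¹ : ℝ≥0∞) = 2⁻¹ := by
    rw [ENNReal.one_sub_inv_two]
  rw [this, inv_inv, ENNReal.inv_mul_cancel (by simp) (by simp)]

lemma univ_goodE_integral : ∫⁻ ω, univ goodE ω ∂unif ≤ 1 := by
  have h1 : ∀ ω, univ goodE ω ≤
      ∑' e, (2 ^ (e + 1) : ℝ≥0∞)⁻¹ * ⨆ s : {s // goodE s (vals e s) = true}, Fv e s ω := by
    intro ω
    unfold univ
    refine iSup_le (fun e => ?_)
    refine le_trans ?_ (ENNReal.le_tsum e)
    refine iSup_le (fun s => iSup_le (fun hs => ?_))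
    rw [div_eq_mul_inv, mul_comm]
    gcongr
    exact le_iSup (fun s : {s // goodE s (vals e s) = true} => Fv e s ω) ⟨s, hs⟩
  refine (lintegral_mono h1).trans ?_
  rw [lintegral_tsum]
  · rw [← tsum_weights]
    refine ENNReal.tsum_le_tsum (fun e => ?_)
    have hmeas : Measurable (fun ω => ⨆ s : {s // goodE s (vals e s) = true}, Fv e s ω) :=
      Measurable.iSup (fun s : {s // goodE s (vals e s) = true} => measurable_Fv e s)
    rw [lintegral_const_mul _ hmeas]
    refine mul_le_of_le_one_right' ?_
    have hdir : Directed (· ≤ ·) (fun (s : {s // goodE s (vals e s) = true}) (ω : Cantor) =>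
        Fv e (s : ℕ) ω) := by
      intro s t
      rcases le_total (s : ℕ) t with h | h
      · exact ⟨t, fun ω => Fv_mono e ω h, le_rfl⟩
      · exact ⟨s, le_rfl, fun ω => Fv_mono e ω h⟩
    have hint := lintegral_iSup_directed (μ := unif)
      (f := fun (s : {s // goodE s (vals e s) = true}) (ω : Cantor) => Fv e (s : ℕ) ω)
      (fun s => (measurable_Fv e s).aemeasurable) hdir
    rw [hint]
    exact iSup_le (fun s => (goodE_iff e s).1 s.2)
  · intro e
    exact ((Measurable.iSup (fun s : {s // goodE s (vals e s) = true} =>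
      measurable_Fv e s)).const_mul _).aemeasurable

theorem exists_universal_expectation : ∃ t, IsUniversal IsExpectationTest t := by
  refine exists_universal (Bd := fun f => ∫⁻ ω, f ω ∂unif ≤ 1) computable_goodE goodE_iff
    ?_ ?_ ?_
  · intro f g hfg hg
    exact (lintegral_mono hfg).trans hg
  · left
    exact ⟨univ_lsc computable_goodE, lt_of_le_of_lt univ_goodE_integral (by simp)⟩
  · rintro f ⟨hl, hb⟩
    refine ⟨hl, ?_⟩
    obtain ⟨M, hM⟩ := ENNReal.exists_nat_gt hb.ne
    have hMpos : 0 < M := by
      rcases Nat.eq_zero_or_pos M with h | h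
      · subst h; simp at hM
      · exact h
    obtain ⟨num, den, _, _, hA⟩ := approx_of_lsc hl
    refine ⟨M, hMpos, ?_⟩
    have hM0 : (M : ℝ≥0∞) ≠ 0 := by simp; omega
    simp only [div_eq_mul_inv]
    rw [lintegral_mul_const _ hA.measurable, ← div_eq_mul_inv,
      ENNReal.div_le_iff hM0 (ENNReal.natCast_ne_top M), one_mul]
    exact hM.le

end Pool.Agent.Rand
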