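import Pool.Agent.Rand.Exist3

open MeasureTheory
open scoped ENNReal NNReal

namespace Pool.Agent.Rand

/-! ### The probability-bounded case -/

/-- number of entries of the list that are at least `v` -/
def cntGe (v : ℕ) (l : List ℕ) : ℕ :=
  l.foldl (fun acc u => acc + (bif decide (v ≤ u) then 1 else 0)) 0

/-- decidable form of the condition `P {F ≥ c} ≤ 1 / c` for all `c > 0` -/
def goodP (s : ℕ) (l : List ℕ) : Bool := l.all (fun v => decide (cntGe v l * v ≤ 4 ^ s))

lemma computable_goodP : Computable₂ goodP := by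
  unfold goodP
  refine computable_all (f := fun a : ℕ × List ℕ => a.2)
    (p := fun a v => decide (cntGe v a.2 * v ≤ 4 ^ a.1)) Computable.snd ?_
  refine comp_le (comp_mul ?_ Computable.snd)
    (comp_pow (Computable.const 4) (Computable.fst.comp Computable.fst))
  unfold cntGe
  refine computable_foldl (f := fun a : (ℕ × List ℕ) × ℕ => a.1.2) (g := fun _ => 0)
    (h := fun a acc u => acc + (bif decide (a.2 ≤ u) then 1 else 0))
    (Computable.snd.comp Computable.fst) (Computable.const 0) ?_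
  exact comp_add (Computable.fst.comp Computable.snd)
    (Computable.cond (comp_le (Computable.snd.comp Computable.fst)
      (Computable.snd.comp Computable.snd)) (Computable.const 1) (Computable.const 0))

lemma cntGe_vals (v e s : ℕ) :
    cntGe v (vals e s) = (allStr s).countP (fun x => decide (v ≤ hv e s x)) := by
  unfold cntGe vals
  have : ∀ (l : List (List Bool)) (a : ℕ),
      (l.map (hv e s)).foldl (fun acc u => acc + (bif decide (v ≤ u) then 1 else 0)) a =
        a + l.countP (fun x => decide (v ≤ hv e s x)) := by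
    intro l
    induction l with
    | nil => intro a; simp
    | cons x t ih =>
      intro a
      rw [List.map_cons, List.foldl_cons, ih, List.countP_cons]
      by_cases h : v ≤ hv e s x
      · simp [h]; ring
      · simp [h]
  rw [this, zero_add]

lemma unif_ge_hv (v e s : ℕ) : unif {ω | v ≤ hv e s (initSeg ω s)} =
    ((cntGe v (vals e s) : ℕ) : ℝ≥0∞) * (1 / 2) ^ s := by
  rw [cntGe_vals]
  exact unif_initSeg (fun x => v ≤ hv e s x) s

/-- the probability bound -/
def BdP (f : Cantor → ℝ≥0∞) : Prop :=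
  ∀ c : ℝ≥0, 0 < c → unif {ω : Cantor | (c : ℝ≥0∞) ≤ f ω} ≤ 1 / (c : ℝ≥0∞)

lemma goodP_iff (e s : ℕ) : goodP s (vals e s) = true ↔ BdP (Fv e s) := by
  unfold goodP
  rw [List.all_eq_true]
  constructor
  · intro h c hc
    by_cases hex : ∃ v, ∃ x ∈ allStr s, (c : ℝ≥0∞) ≤ (hv e s x : ℝ≥0∞) / 2 ^ s ∧ hv e s x = v
    · classical
      obtain ⟨x, hx, hcx, hvx⟩ := Nat.find_spec hex
      set v := Nat.find hex with hv_def
      have hmin : ∀ y ∈ allStr s, (c : ℝ≥0∞) ≤ (hv e s y : ℝ≥0∞) / 2 ^ s → v ≤ hv e s y := by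
        intro y hy hcy
        exact Nat.find_min' hex ⟨y, hy, hcy, rfl⟩
      have hsub : {ω : Cantor | (c : ℝ≥0∞) ≤ Fv e s ω} ⊆ {ω | v ≤ hv e s (initSeg ω s)} := by
        intro ω hω
        exact hmin _ ((mem_allStr _ _).2 (length_initSeg ω s)) hω
      refine (measure_mono hsub).trans ?_
      rw [unif_ge_hv]
      have h1 := h v (by unfold vals; exact List.mem_map.2 ⟨x, hx, hvx⟩)
      rw [decide_eq_true_iff] at h1
      rw [hvx] at hcx
      have hc0 : (c : ℝ≥0∞) ≠ 0 := by simp; exact hc.ne'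
      rw [ENNReal.le_div_iff_mul_le (Or.inl hc0) (Or.inl ENNReal.coe_ne_top)]
      calc ((cntGe v (vals e s) : ℕ) : ℝ≥0∞) * (1 / 2) ^ s * (c : ℝ≥0∞)
          ≤ ((cntGe v (vals e s) : ℕ) : ℝ≥0∞) * (1 / 2) ^ s * ((v : ℝ≥0∞) / 2 ^ s) := by gcongr
        _ = ((cntGe v (vals e s) * v : ℕ) : ℝ≥0∞) * (4 ^ s)⁻¹ := by
            rw [one_div, ← ENNReal.inv_pow, div_eq_mul_inv,
              show (4 : ℝ≥0∞) = 2 * 2 by norm_num, mul_pow,
              ENNReal.mul_inv (by simp) (by simp)]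
            push_cast
            ring
        _ ≤ ((4 ^ s : ℕ) : ℝ≥0∞) * (4 ^ s)⁻¹ := by gcongr
        _ = 1 := by
            push_cast
            exact ENNReal.mul_inv_cancel (by positivity) (by simp)
    · have : {ω : Cantor | (c : ℝ≥0∞) ≤ Fv e s ω} = ∅ := by
        ext ω
        simp only [Set.mem_ofPred_eq, Set.mem_empty_iff_false, iff_false]
        intro hω
        exact hex ⟨_, _, (mem_allStr _ _).2 (length_initSeg ω s), hω, rfl⟩
      rw [this]
      simp
  · intro h v hv'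
    rw [decide_eq_true_iff]
    rcases Nat.eq_zero_or_pos v with h0 | hpos
    · subst h0; simp
    · have hc : (0 : ℝ≥0) < (v : ℝ≥0) / 2 ^ s := by positivity
      have h1 := h _ hc
      have hcoe : (((v : ℝ≥0) / 2 ^ s : ℝ≥0) : ℝ≥0∞) = (v : ℝ≥0∞) / 2 ^ s := by
        rw [ENNReal.coe_div (by positivity)]
        push_cast
        rfl
      have h2 : {ω : Cantor | (((v : ℝ≥0) / 2 ^ s : ℝ≥0) : ℝ≥0∞) ≤ Fv e s ω} =
          {ω | v ≤ hv e s (initSeg ω s)} := by
        ext ω
        simp only [Set.mem_ofPred_eq]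
        rw [hcoe]
        unfold Fv
        rw [ENNReal.div_le_iff (by positivity) (by simp), ENNReal.div_mul_cancel
          (by positivity) (by simp)]
        norm_cast
      rw [h2, unif_ge_hv, hcoe] at h1
      have hv0 : (v : ℝ≥0∞) / 2 ^ s ≠ 0 := by
        simp only [ne_eq, ENNReal.div_eq_zero_iff, Nat.cast_eq_zero, not_or]
        exact ⟨by omega, by simp⟩
      have hv1 : (v : ℝ≥0∞) / 2 ^ s ≠ ∞ := ENNReal.div_ne_top (by simp) (by positivity)
      rw [ENNReal.le_div_iff_mul_le (Or.inl hv0) (Or.inl hv1)] at h1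
      have h3 : ((cntGe v (vals e s) * v : ℕ) : ℝ≥0∞) ≤ ((4 ^ s : ℕ) : ℝ≥0∞) := by
        have h4 : ((cntGe v (vals e s) * v : ℕ) : ℝ≥0∞) * (4 ^ s)⁻¹ ≤ 1 := by
          refine le_trans (le_of_eq ?_) h1
          rw [one_div, ← ENNReal.inv_pow, div_eq_mul_inv,
              show (4 : ℝ≥0∞) = 2 * 2 by norm_num, mul_pow,
              ENNReal.mul_inv (by simp) (by simp)]
          push_cast
          ring
        rw [← div_eq_mul_inv, ENNReal.div_le_iff (by positivity) (by simp), one_mul] at h4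
        push_cast
        push_cast at h4
        exact h4
      exact_mod_cast h3

lemma BdP_of_lt {f : Cantor → ℝ≥0∞}
    (h : ∀ c : ℝ≥0, 0 < c → unif {ω : Cantor | (c : ℝ≥0∞) < f ω} ≤ 1 / (c : ℝ≥0∞)) : BdP f := by
  intro c hc
  by_contra hcon
  push Not at hcon
  set p := unif {ω : Cantor | (c : ℝ≥0∞) ≤ f ω} with hp
  -- find `c' < c` with `1 / c' < p`
  have hc0 : (c : ℝ≥0∞) ≠ 0 := by simp; exact hc.ne'
  have hp0 : p ≠ 0 := (lt_of_le_of_lt zero_le hcon).ne'
  have h1 : 1 / p < (c : ℝ≥0∞) := by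
    rw [ENNReal.div_lt_iff (Or.inl hp0) (Or.inl (measure_ne_top _ _))]
    rwa [ENNReal.div_lt_iff (Or.inl hc0) (Or.inl ENNReal.coe_ne_top), mul_comm] at hcon
  obtain ⟨c', hc1, hc2⟩ := ENNReal.lt_iff_exists_nnreal_btwn.1 h1
  have hc' : (0 : ℝ≥0) < c' := by
    have : (0 : ℝ≥0∞) < c' := lt_of_le_of_lt zero_le hc1
    exact_mod_cast this
  have h2 := h c' hc'
  have h3 : p ≤ unif {ω : Cantor | (c' : ℝ≥0∞) < f ω} := by
    refine measure_mono ?_
    intro ω hω
    exact lt_of_lt_of_le hc2 hω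
  have h4 : p ≤ 1 / (c' : ℝ≥0∞) := h3.trans h2
  have hc'0 : (c' : ℝ≥0∞) ≠ 0 := by simp; exact hc'.ne'
  rw [ENNReal.le_div_iff_mul_le (Or.inl hc'0) (Or.inl ENNReal.coe_ne_top)] at h4
  rw [ENNReal.div_lt_iff (Or.inl hp0) (Or.inl (measure_ne_top _ _)), mul_comm] at hc1
  exact absurd h4 (not_le.2 hc1)

lemma univ_goodP_BdP : BdP (univ goodP) := by
  refine BdP_of_lt (fun c hc => ?_)
  have hc0 : (c : ℝ≥0∞) ≠ 0 := by simp; exact hc.ne'
  have hsub : {ω : Cantor | (c : ℝ≥0∞) < univ goodP ω} ⊆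
      ⋃ e, ⋃ s : {s // goodP s (vals e s) = true},
        {ω : Cantor | ((2 ^ (e + 1) * c : ℝ≥0) : ℝ≥0∞) ≤ Fv e s ω} := by
    intro ω hω
    simp only [Set.mem_ofPred_eq, univ] at hω
    obtain ⟨e, he⟩ := lt_iSup_iff.1 hω
    obtain ⟨s, hs⟩ := lt_iSup_iff.1 he
    obtain ⟨hgood, h⟩ := lt_iSup_iff.1 hs
    simp only [Set.mem_iUnion]
    refine ⟨e, ⟨s, hgood⟩, ?_⟩
    rw [ENNReal.lt_div_iff_mul_lt (Or.inl (by simp)) (Or.inl (by simp))] at h
    simp only [Set.mem_ofPred_eq]
    push_cast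
    rw [mul_comm]
    exact h.le
  refine (measure_mono hsub).trans ?_
  refine (measure_iUnion_le _).trans ?_
  have h1 : ∀ e, unif (⋃ s : {s // goodP s (vals e s) = true},
      {ω : Cantor | ((2 ^ (e + 1) * c : ℝ≥0) : ℝ≥0∞) ≤ Fv e s ω}) ≤
      (2 ^ (e + 1) : ℝ≥0∞)⁻¹ * (1 / c) := by
    intro e
    have hdir : Directed (· ⊆ ·) (fun s : {s // goodP s (vals e s) = true} =>
        {ω : Cantor | ((2 ^ (e + 1) * c : ℝ≥0) : ℝ≥0∞) ≤ Fv e s ω}) := by
      intro s t
      rcases le_total (s : ℕ) t with h | h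
      · exact ⟨t, fun ω hω => le_trans (show _ ≤ Fv e s ω from hω) (Fv_mono e ω h), fun ω hω => hω⟩
      · exact ⟨s, fun ω hω => hω, fun ω hω => le_trans (show _ ≤ Fv e t ω from hω) (Fv_mono e ω h)⟩
    rw [hdir.measure_iUnion]
    refine iSup_le (fun s => ?_)
    have h2 := (goodP_iff e s).1 s.2 (2 ^ (e + 1) * c) (by positivity)
    refine h2.trans (le_of_eq ?_)
    push_cast
    rw [one_div, one_div, ENNReal.mul_inv (by simp) (by simp)]
  refine (ENNReal.tsum_le_tsum h1).trans ?_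
  rw [ENNReal.tsum_mul_right, tsum_weights, one_mul]

theorem exists_universal_probability : ∃ t, IsUniversal IsProbabilityTest t := by
  refine exists_universal (Bd := BdP) computable_goodP goodP_iff ?_ ?_ ?_
  · intro f g hfg hg c hc
    exact (measure_mono (fun ω hω => le_trans (show _ ≤ f ω from hω) (hfg ω))).trans (hg c hc)
  · left
    exact ⟨univ_lsc computable_goodP, univ_goodP_BdP⟩
  · rintro f ⟨hl, hb⟩
    refine ⟨hl, 1, one_pos, ?_⟩
    simp only [Nat.cast_one, div_one]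
    exact hb

end Pool.Agent.Rand
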