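import Pool.Agent.Rand.MLTest

open MeasureTheory
open scoped ENNReal NNReal

namespace Pool.Agent.Rand

lemma approx_of_lsc {f : Cantor → ℝ≥0∞} (hf : LowerSemicomputable f) :
    ∃ num den : ℕ → List Bool → ℕ, Computable₂ num ∧ Computable₂ den ∧ Approx num den f := by
  obtain ⟨num, den, h1, h2, h3, h4⟩ := hf
  exact ⟨num, den, h1, h2, ⟨h3, h4⟩⟩

/-- a probability-bounded test is finite wherever a universal expectation-bounded test is -/
theorem prob_finite {tE tP : Cantor → ℝ≥0∞} (hE : IsUniversal IsExpectationTest tE)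
    (hP : IsProbabilityTest tP) {ω : Cantor} (hω : tE ω ≠ ∞) : tP ω ≠ ∞ := by
  obtain ⟨hl, hb⟩ := hP
  obtain ⟨nP, dP, hn, hd, hA⟩ := approx_of_lsc hl
  have hU : ∀ n, {ω : Cantor | ∃ k : ℕ, 2 ^ n * (dP (initSeg ω k).length (initSeg ω k) + 1) <
      nP (initSeg ω k).length (initSeg ω k)} = {ω : Cantor | (2 : ℝ≥0∞) ^ n < tP ω} := by
    intro n
    ext ω
    simp only [length_initSeg, Set.mem_ofPred_eq]
    rw [hA.sup, lt_iSup_iff]
    refine exists_congr (fun k => ?_)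
    rw [← lt_apx_iff]
    push_cast
    rfl
  have hML : IsMartinLofTest (fun n => {ω : Cantor | (2 : ℝ≥0∞) ^ n < tP ω}) := by
    refine ⟨⟨fun p => 2 ^ p.1 * (dP p.2.length p.2 + 1) < nP p.2.length p.2, ?_, ?_⟩, ?_⟩
    · have hc : Computable (fun p : ℕ × List Bool =>
          decide (2 ^ p.1 * (dP p.2.length p.2 + 1) < nP p.2.length p.2)) := by
        have hx : Computable (fun p : ℕ × List Bool => p.2) := Computable.snd
        have hlen : Computable (fun p : ℕ × List Bool => p.2.length) :=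
          Computable.list_length.comp hx
        exact comp_lt (comp_mul (comp_pow (Computable.const 2) Computable.fst)
          (comp_succ (hd.comp hlen hx))) (hn.comp hlen hx)
      exact (hc.computablePred).to_re
    · intro n
      exact (hU n).symm
    · intro n
      have h1 := hb (2 ^ n) (by positivity)
      refine le_trans (measure_mono ?_) (h1.trans (le_of_eq ?_))
      · intro ω hω
        simp only [Set.mem_ofPred_eq] at hω ⊢
        push_cast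
        exact hω.le
      · push_cast
        rw [one_div, one_div, ENNReal.inv_pow]
  obtain ⟨n, hn⟩ := random_of_finite hE hω _ hML
  simp only [Set.mem_ofPred_eq, not_lt] at hn
  exact ne_top_of_le_ne_top (by simp) hn

lemma scaled_div (a d M : ℕ) (hM : 0 < M) :
    (a : ℝ≥0∞) / ((((d + 1) * M - 1 : ℕ) : ℝ≥0∞) + 1) = (a : ℝ≥0∞) / ((d : ℝ≥0∞) + 1) / M := by
  have h1 : ((d + 1) * M - 1) + 1 = (d + 1) * M :=
    Nat.sub_add_cancel (Nat.mul_pos (Nat.succ_pos _) hM)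
  have e : (((d + 1) * M - 1 : ℕ) : ℝ≥0∞) + 1 = ((d : ℝ≥0∞) + 1) * M := by
    have h2 : ((((d + 1) * M - 1) + 1 : ℕ) : ℝ≥0∞) = (((d + 1) * M : ℕ) : ℝ≥0∞) := by rw [h1]
    rw [Nat.cast_add, Nat.cast_mul, Nat.cast_add] at h2
    simpa using h2
  rw [e, div_eq_mul_inv, div_eq_mul_inv, div_eq_mul_inv, mul_assoc,
    ENNReal.mul_inv (Or.inl (by positivity)) (Or.inl (ENNReal.add_ne_top.2
      ⟨ENNReal.natCast_ne_top _, ENNReal.one_ne_top⟩))]

/-- scaling a lower semicomputable function -/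
lemma lsc_div {f : Cantor → ℝ≥0∞} (hf : LowerSemicomputable f) {M : ℕ} (hM : 0 < M) :
    LowerSemicomputable (fun ω => f ω / M) := by
  obtain ⟨num, den, hn, hd, hm, hs⟩ := hf
  refine ⟨num, fun s x => (den s x + 1) * M - 1, hn, ?_, ?_, ?_⟩
  · exact comp_sub (comp_mul (comp_succ hd) (Computable.const M)) (Computable.const 1)
  · intro ω s t hst
    simp only [scaled_div _ _ _ hM]
    exact ENNReal.div_le_div_right (hm ω hst) _
  · intro ω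
    simp only [scaled_div _ _ _ hM]
    rw [hs ω, ENNReal.iSup_div]

/-- an expectation-bounded test is finite wherever a universal probability-bounded test is -/
theorem expect_finite {tE tP : Cantor → ℝ≥0∞} (hE : IsExpectationTest tE)
    (hP : IsUniversal IsProbabilityTest tP) {ω : Cantor} (hω : tP ω ≠ ∞) : tE ω ≠ ∞ := by
  obtain ⟨hl, hb⟩ := hE
  obtain ⟨nE, dE, hn, hd, hA⟩ := approx_of_lsc hl
  obtain ⟨M, hM⟩ := ENNReal.exists_nat_gt hb.ne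
  have hMpos : 0 < M := by
    rcases Nat.eq_zero_or_pos M with h | h
    · subst h; simp at hM
    · exact h
  have hM0 : (M : ℝ≥0∞) ≠ 0 := by simp; omega
  have htest : IsProbabilityTest (fun ω => tE ω / M) := by
    refine ⟨lsc_div hl hMpos, ?_⟩
    intro c hc
    have h1 : unif {ω : Cantor | (c : ℝ≥0∞) ≤ tE ω / M} ≤
        unif {ω : Cantor | (c : ℝ≥0∞) * M ≤ tE ω} := by
      refine measure_mono ?_
      intro ω hω
      simp only [Set.mem_ofPred_eq] at hω ⊢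
      rwa [ENNReal.le_div_iff_mul_le (Or.inl hM0) (Or.inl (ENNReal.natCast_ne_top M))] at hω
    refine h1.trans ?_
    have hc0 : (c : ℝ≥0∞) ≠ 0 := by simp; exact hc.ne'
    have hcM : (c : ℝ≥0∞) * M ≠ 0 := mul_ne_zero hc0 hM0
    have hcM' : (c : ℝ≥0∞) * M ≠ ∞ := ENNReal.mul_ne_top ENNReal.coe_ne_top
      (ENNReal.natCast_ne_top M)
    have h2 := meas_ge_le_lintegral_div (hA.measurable.aemeasurable (μ := unif)) hcM hcM'
    refine h2.trans ?_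
    calc (∫⁻ ω, tE ω ∂unif) / ((c : ℝ≥0∞) * M) ≤ M / ((c : ℝ≥0∞) * M) :=
          ENNReal.div_le_div_right hM.le _
      _ = 1 / (c : ℝ≥0∞) := by
          rw [div_eq_mul_inv, ENNReal.mul_inv (Or.inl hc0) (Or.inl ENNReal.coe_ne_top),
            mul_comm ((c : ℝ≥0∞)⁻¹), ← mul_assoc,
            ENNReal.mul_inv_cancel hM0 (ENNReal.natCast_ne_top M), one_mul, one_div]
  obtain ⟨C, hC⟩ := hP.2 _ htest
  have h1 := hC ω
  have h2 : tE ω / M ≠ ∞ := ne_top_of_le_ne_top (ENNReal.mul_ne_top ENNReal.coe_ne_top hω) h1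
  intro htop
  rw [htop, ENNReal.top_div_of_ne_top (ENNReal.natCast_ne_top M)] at h2
  exact h2 rfl

lemma univ_pos {T : (Cantor → ℝ≥0∞) → Prop} {t f : Cantor → ℝ≥0∞} (ht : IsUniversal T t)
    (hf : T f) (h1 : ∀ ω, 1 ≤ f ω) (ω : Cantor) : t ω ≠ 0 := by
  obtain ⟨C, hC⟩ := ht.2 f hf
  intro h0
  have := (h1 ω).trans (hC ω)
  rw [h0, mul_zero] at this
  simp at this

/-- the multiplicative form of the result -/
theorem opposite_mul {tE tP : Cantor → ℝ≥0∞} (hE : IsUniversal IsExpectationTest tE)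
    (hP : IsUniversal IsProbabilityTest tP) (N : ℕ) :
    ∃ ω₁ ω₂ : Cantor, tE ω₁ ≠ ∞ ∧ tE ω₂ ≠ ∞ ∧ tP ω₁ ≠ ∞ ∧ tP ω₂ ≠ ∞ ∧
      2 ^ N * tE ω₂ ≤ tE ω₁ ∧ 2 ^ N * tP ω₁ ≤ tP ω₂ := by
  obtain ⟨nE, dE, hnE, hdE, hAE⟩ := approx_of_lsc hE.1.1
  obtain ⟨nP, dP, hnP, hdP, hAP⟩ := approx_of_lsc hP.1.1
  have hEi := hE.1.2
  have hPb := hP.1.2
  obtain ⟨C₁, hC₁⟩ := hP.2 lead lead_isProbabilityTest
  obtain ⟨C₂, hC₂⟩ := hE.2 _ (rew_isExpectationTest hnE hdE hnP hdP hAE hEi hAP hPb)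
  obtain ⟨c, hc⟩ : ∃ c : ℕ, (2 ^ N * (C₁ + C₂ + 1) : ℝ≥0) ≤ 2 ^ c := by
    obtain ⟨n, hn⟩ := pow_unbounded_of_one_lt (2 ^ N * (C₁ + C₂ + 1) : ℝ≥0)
      (by norm_num : (1 : ℝ≥0) < 2)
    exact ⟨n, hn.le⟩
  obtain ⟨r, j, hvis, ⟨ω₂, hω₂, htE⟩, ⟨ω₁, hω₁, htP⟩⟩ := game_outcome hAE hEi hAP hPb c
  have hE2 : tE ω₂ ≠ ∞ := ne_top_of_le_ne_top (by simp) htE
  have hP1 : tP ω₁ ≠ ∞ := ne_top_of_le_ne_top (by simp) htP
  refine ⟨ω₁, ω₂, expect_finite hE.1 hP hP1, hE2, hP1, prob_finite hE hP.1 hE2, ?_, ?_⟩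
  · have h1 := (le_rew (nE := nE) (dE := dE) (nP := nP) (dP := dP) c r j hvis ω₁ hω₁).trans
      (hC₂ ω₁)
    -- 2^(c+r+j) ≤ C₂ * tE ω₁
    have hC : (C₂ : ℝ≥0∞) ≤ ((C₁ + C₂ + 1 : ℝ≥0) : ℝ≥0∞) := by
      refine ENNReal.coe_le_coe.2 ?_
      calc C₂ ≤ C₁ + C₂ := le_add_self
        _ ≤ C₁ + C₂ + 1 := le_self_add
    have h2 : (2 : ℝ≥0∞) ^ c * 2 ^ (r + j) ≤ ((C₁ + C₂ + 1 : ℝ≥0) : ℝ≥0∞) * tE ω₁ := by
      rw [← pow_add, ← add_assoc]
      exact h1.trans (by gcongr)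
    have h3 : ((C₁ + C₂ + 1 : ℝ≥0) : ℝ≥0∞) * (2 ^ N * tE ω₂) ≤
        ((C₁ + C₂ + 1 : ℝ≥0) : ℝ≥0∞) * tE ω₁ := by
      refine le_trans ?_ h2
      calc ((C₁ + C₂ + 1 : ℝ≥0) : ℝ≥0∞) * (2 ^ N * tE ω₂)
          = ((2 ^ N * (C₁ + C₂ + 1) : ℝ≥0) : ℝ≥0∞) * tE ω₂ := by push_cast; ring
        _ ≤ ((2 ^ c : ℝ≥0) : ℝ≥0∞) * 2 ^ (r + j) := by
            gcongr
        _ = 2 ^ c * 2 ^ (r + j) := by push_cast; ring
    rwa [ENNReal.mul_le_mul_iff_right (by simp) ENNReal.coe_ne_top] at h3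
  · have hz : ∀ i < kk c + r, ω₂ i = false := by
      unfold cmp at hω₂
      exact (mem_cyl_zeros_one.1 hω₂).1
    have h1 := (le_lead hz).trans (hC₁ ω₂)
    have hck : c ≤ kk c := by
      unfold kk
      have h4 : c < 2 ^ c := Nat.lt_two_pow_self
      have h5 : 2 ^ c ≤ 2 ^ (3 * c) := Nat.pow_le_pow_right (by norm_num) (by omega)
      omega
    have hC : (C₁ : ℝ≥0∞) ≤ ((C₁ + C₂ + 1 : ℝ≥0) : ℝ≥0∞) := by
      refine ENNReal.coe_le_coe.2 ?_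
      calc C₁ ≤ C₁ + C₂ := le_self_add
        _ ≤ C₁ + C₂ + 1 := le_self_add
    have h3 : ((C₁ + C₂ + 1 : ℝ≥0) : ℝ≥0∞) * (2 ^ N * tP ω₁) ≤
        ((C₁ + C₂ + 1 : ℝ≥0) : ℝ≥0∞) * tP ω₂ := by
      calc ((C₁ + C₂ + 1 : ℝ≥0) : ℝ≥0∞) * (2 ^ N * tP ω₁)
          = ((2 ^ N * (C₁ + C₂ + 1) : ℝ≥0) : ℝ≥0∞) * tP ω₁ := by push_cast; ring
        _ ≤ ((2 ^ c : ℝ≥0) : ℝ≥0∞) * 2 ^ (kk c + r - c) := by gcongr
        _ = 2 ^ (kk c + r) := by
            push_cast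
            rw [← pow_add]
            congr 1
            omega
        _ ≤ C₁ * tP ω₂ := h1
        _ ≤ _ := by gcongr
    rwa [ENNReal.mul_le_mul_iff_right (by simp) ENNReal.coe_ne_top] at h3

end Pool.Agent.Rand
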