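import Pool.Agent.Rand.Basic
import Pool.Agent.Rand.Comp

open MeasureTheory
open scoped ENNReal NNReal

namespace Pool.Agent.Rand

/-! ### Stage approximations -/

/-- the value of the approximation at stage `s` -/
noncomputable def apx (num den : ℕ → List Bool → ℕ) (ω : Cantor) (s : ℕ) : ℝ≥0∞ :=
  (num s (initSeg ω s) : ℝ≥0∞) / ((den s (initSeg ω s) : ℝ≥0∞) + 1)

lemma lt_apx_iff {num den : ℕ → List Bool → ℕ} {ω : Cantor} {s v : ℕ} :
    (v : ℝ≥0∞) < apx num den ω s ↔ v * (den s (initSeg ω s) + 1) < num s (initSeg ω s) := by
  unfold apx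
  rw [ENNReal.lt_div_iff_mul_lt]
  · norm_cast
  · left; simp
  · left
    exact ENNReal.add_ne_top.2 ⟨ENNReal.natCast_ne_top _, ENNReal.one_ne_top⟩

/-- at stage `s` we see that the function is `> v` on the whole cylinder of `y` -/
def above (num den : ℕ → List Bool → ℕ) (s : ℕ) (y : List Bool) (v : ℕ) : Bool :=
  decide (y.length ≤ s) &&
    (allStr s).all (fun x => !(decide (x.take y.length = y)) ||
      decide (v * (den s x + 1) < num s x))

lemma above_iff {num den : ℕ → List Bool → ℕ} {s : ℕ} {y : List Bool} {v : ℕ} :
    above num den s y v = true ↔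
      y.length ≤ s ∧ ∀ ω ∈ cyl y, (v : ℝ≥0∞) < apx num den ω s := by
  unfold above
  rw [Bool.and_eq_true, decide_eq_true_iff, List.all_eq_true]
  refine and_congr_right (fun hs => ?_)
  constructor
  · intro h ω hω
    rw [lt_apx_iff]
    have h1 := h (initSeg ω s) ((mem_allStr _ _).2 (length_initSeg ω s))
    rw [take_initSeg ω hs] at h1
    have h2 : initSeg ω y.length = y := hω
    simpa [h2] using h1
  · intro h x hx
    have hx' : x.length = s := (mem_allStr _ _).1 hx
    by_cases hy : x.take y.length = y
    · have h1 : ext x ∈ cyl y := by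
        rw [mem_cyl]
        have : initSeg (ext x) x.length = x := initSeg_ext x
        rw [← take_initSeg (ext x) (show y.length ≤ x.length by omega), this, hy]
      have h2 := h (ext x) h1
      rw [lt_apx_iff, ← hx', initSeg_ext x] at h2
      simp [hx'] at h2 ⊢
      exact Or.inr h2
    · simp [hy]

lemma computable_above {num den : ℕ → List Bool → ℕ} (hn : Computable₂ num)
    (hd : Computable₂ den) {α : Type*} [Primcodable α] {s : α → ℕ} {y : α → List Bool}
    {v : α → ℕ} (hs : Computable s) (hy : Computable y) (hv : Computable v) :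
    Computable (fun a => above num den (s a) (y a) (v a)) := by
  unfold above
  refine comp_and (comp_le (Computable.list_length.comp hy) hs) ?_
  refine computable_all (f := fun a => allStr (s a))
    (p := fun a x => !(decide (x.take (y a).length = (y a))) ||
      decide ((v a) * (den (s a) x + 1) < num (s a) x)) (primrec_allStr.to_comp.comp hs) ?_
  refine comp_or (comp_not (comp_eq ?_ ?_)) ?_
  · exact comp_take (Computable.list_length.comp (hy.comp Computable.fst)) Computable.snd
  · exact hy.comp Computable.fst
  · refine comp_lt (comp_mul (hv.comp Computable.fst) (comp_succ ?_)) ?_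
    · exact hd.comp (hs.comp Computable.fst) Computable.snd
    · exact hn.comp (hs.comp Computable.fst) Computable.snd

theorem primrec_oneHot : Primrec₂ oneHot := by
  unfold oneHot
  refine Primrec.list_map (Primrec.list_range.comp Primrec.fst) ?_
  exact Primrec.beq.comp Primrec.snd (Primrec.snd.comp Primrec.fst)

theorem comp_oneHot {α : Type*} [Primcodable α] {f g : α → ℕ} (hf : Computable f)
    (hg : Computable g) : Computable (fun a => oneHot (f a) (g a)) :=
  (primrec_oneHot.to_comp).comp hf hg

/-! ### The game -/

/-- the basic length parameter of the game with parameter `c` -/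
def kk (c : ℕ) : ℕ := 2 ^ (3 * c) + 1

/-- the string on which the reward is placed in state `(r, j)` -/
def tgt (c r j : ℕ) : List Bool := oneHot (kk c + r + 2 * c) j

/-- the comparison string `0^{k+r} 1` of round `r` -/
def cmp (c r : ℕ) : List Bool := oneHot (kk c + r + 1) (kk c + r)

variable (nE dE nP dP : ℕ → List Bool → ℕ)

/-- one step of the game -/
def stepG (c s : ℕ) (q : ℕ × ℕ) : ℕ × ℕ :=
  bif above nE dE s (cmp c q.1) (2 ^ (q.1 + q.2)) then (q.1 + 1, 0)
  else bif above nP dP s (tgt c q.1 q.2) (2 ^ (kk c + q.1 - c)) then (q.1, q.2 + 1)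
  else q

/-- the state of the game after `s` steps -/
def stateG (c : ℕ) : ℕ → ℕ × ℕ
  | 0 => (0, 0)
  | s + 1 => stepG nE dE nP dP c s (stateG c s)

/-- the reward contributed by the state at time `s` of game `c` to the extensions of `x` -/
def valG (c s : ℕ) (x : List Bool) : ℕ :=
  bif decide (x.take (tgt c (stateG nE dE nP dP c s).1 (stateG nE dE nP dP c s).2).length =
      tgt c (stateG nE dE nP dP c s).1 (stateG nE dE nP dP c s).2) then
    2 ^ (c + (stateG nE dE nP dP c s).1 + (stateG nE dE nP dP c s).2)
  else 0

/-- the approximation at stage `s` of the reward function -/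
def apxG (s : ℕ) (x : List Bool) : ℕ :=
  (List.range (s + 1)).foldl (fun acc t => max acc (valG nE dE nP dP t.unpair.1 t.unpair.2 x)) 0

variable {nE dE nP dP}

lemma comp_kk {α : Type*} [Primcodable α] {f : α → ℕ} (hf : Computable f) :
    Computable (fun a => kk (f a)) := by
  unfold kk
  exact comp_succ (comp_pow (Computable.const 2) (comp_mul (Computable.const 3) hf))

lemma comp_tgt {α : Type*} [Primcodable α] {f g h : α → ℕ} (hf : Computable f)
    (hg : Computable g) (hh : Computable h) :
    Computable (fun a => tgt (f a) (g a) (h a)) := by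
  unfold tgt
  exact comp_oneHot (comp_add (comp_add (comp_kk hf) hg) (comp_mul (Computable.const 2) hf)) hh

lemma comp_cmp {α : Type*} [Primcodable α] {f g : α → ℕ} (hf : Computable f)
    (hg : Computable g) :
    Computable (fun a => cmp (f a) (g a)) := by
  unfold cmp
  exact comp_oneHot (comp_succ (comp_add (comp_kk hf) hg)) (comp_add (comp_kk hf) hg)

theorem computable_stateG (hnE : Computable₂ nE) (hdE : Computable₂ dE) (hnP : Computable₂ nP)
    (hdP : Computable₂ dP) : Computable₂ (stateG nE dE nP dP) := by
  have h : Computable (fun a : ℕ × ℕ => (Nat.rec ((0 : ℕ), (0 : ℕ))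
      (fun s q => stepG nE dE nP dP a.1 s q) a.2 : ℕ × ℕ)) := by
    refine Computable.nat_rec (f := fun a : ℕ × ℕ => a.2) (g := fun _ => ((0 : ℕ), (0 : ℕ)))
      (h := fun a p => stepG nE dE nP dP a.1 p.1 p.2) Computable.snd
      (Computable.const _) ?_
    -- variables: q : (ℕ × ℕ) × ℕ × (ℕ × ℕ)
    have hc : Computable (fun q : (ℕ × ℕ) × ℕ × (ℕ × ℕ) => q.1.1) :=
      Computable.fst.comp Computable.fst
    have hs : Computable (fun q : (ℕ × ℕ) × ℕ × (ℕ × ℕ) => q.2.1) :=
      Computable.fst.comp Computable.snd
    have hr : Computable (fun q : (ℕ × ℕ) × ℕ × (ℕ × ℕ) => q.2.2.1) :=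
      Computable.fst.comp (Computable.snd.comp Computable.snd)
    have hj : Computable (fun q : (ℕ × ℕ) × ℕ × (ℕ × ℕ) => q.2.2.2) :=
      Computable.snd.comp (Computable.snd.comp Computable.snd)
    have hq : Computable (fun q : (ℕ × ℕ) × ℕ × (ℕ × ℕ) => q.2.2) :=
      Computable.snd.comp Computable.snd
    unfold stepG
    refine Computable.cond ?_ ?_ (Computable.cond ?_ ?_ ?_)
    · exact computable_above hnE hdE hs (comp_cmp hc hr)
        (comp_pow (Computable.const 2) (comp_add hr hj))
    · exact Computable.pair (comp_succ hr) (Computable.const 0)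
    · exact computable_above hnP hdP hs (comp_tgt hc hr hj)
        (comp_pow (Computable.const 2) (comp_sub (comp_add (comp_kk hc) hr) hc))
    · exact Computable.pair hr (comp_succ hj)
    · exact hq
  refine h.of_eq ?_
  rintro ⟨c, s⟩
  show (Nat.rec ((0 : ℕ), (0 : ℕ)) (fun s q => stepG nE dE nP dP c s q) s : ℕ × ℕ) =
    stateG nE dE nP dP c s
  induction s with
  | zero => rfl
  | succ s ih =>
    show stepG nE dE nP dP c s _ = _
    rw [ih]
    rfl

theorem computable_apxG (hnE : Computable₂ nE) (hdE : Computable₂ dE) (hnP : Computable₂ nP)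
    (hdP : Computable₂ dP) : Computable₂ (apxG nE dE nP dP) := by
  have hst := computable_stateG hnE hdE hnP hdP
  unfold apxG
  refine computable_foldl (f := fun a : ℕ × List Bool => List.range (a.1 + 1)) (g := fun _ => 0)
    (h := fun a acc t => max acc (valG nE dE nP dP t.unpair.1 t.unpair.2 a.2)) ?_
    (Computable.const 0) ?_
  · exact Primrec.list_range.to_comp.comp (comp_succ Computable.fst)
  · -- p : (ℕ × List Bool) × ℕ × ℕ
    have hx : Computable (fun p : (ℕ × List Bool) × ℕ × ℕ => p.1.2) :=
      Computable.snd.comp Computable.fst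
    have ht : Computable (fun p : (ℕ × List Bool) × ℕ × ℕ => p.2.2.unpair) :=
      Computable.unpair.comp (Computable.snd.comp Computable.snd)
    have hc := Computable.fst.comp ht
    have hs := Computable.snd.comp ht
    have hq : Computable (fun p : (ℕ × List Bool) × ℕ × ℕ =>
        stateG nE dE nP dP p.2.2.unpair.1 p.2.2.unpair.2) := hst.comp hc hs
    have hr := Computable.fst.comp hq
    have hj := Computable.snd.comp hq
    refine comp_max (Computable.fst.comp Computable.snd) ?_
    unfold valG
    refine Computable.cond (comp_eq (comp_take (Computable.list_length.comp (comp_tgt hc hr hj)) hx)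
      (comp_tgt hc hr hj)) (comp_pow (Computable.const 2) (comp_add (comp_add hc hr) hj))
      (Computable.const 0)

end Pool.Agent.Rand
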