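import Pool.Agent.Rand.Cost

open MeasureTheory
open scoped ENNReal NNReal

namespace Pool.Agent.Rand

/-- a convenient criterion for lower semicomputability with natural number approximations -/
lemma lowerSemicomputable_of_nat {f : Cantor → ℝ≥0∞} (a : ℕ → List Bool → ℕ)
    (ha : Computable₂ a) (hm : ∀ ω s, a s (initSeg ω s) ≤ a (s + 1) (initSeg ω (s + 1)))
    (hf : ∀ ω, f ω = ⨆ s, (a s (initSeg ω s) : ℝ≥0∞)) : LowerSemicomputable f := by
  refine ⟨a, fun _ _ => 0, ha, (Computable.const 0), ?_, ?_⟩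
  · intro ω
    apply monotone_nat_of_le_succ
    intro s
    simp only [Nat.cast_zero, zero_add, div_one]
    exact_mod_cast hm ω s
  · intro ω
    rw [hf ω]
    simp

lemma foldl_max_le {ι : Type*} (l : List ι) (f : ι → ℕ) (a B : ℕ) :
    l.foldl (fun acc t => max acc (f t)) a ≤ B ↔ a ≤ B ∧ ∀ t ∈ l, f t ≤ B := by
  induction l generalizing a with
  | nil => simp
  | cons x t ih =>
    rw [List.foldl_cons, ih]
    simp only [max_le_iff, List.mem_cons, forall_eq_or_imp]
    tauto

variable {nE dE nP dP : ℕ → List Bool → ℕ} {tE tP : Cantor → ℝ≥0∞}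

lemma apxG_le {s : ℕ} {x : List Bool} {B : ℕ} :
    apxG nE dE nP dP s x ≤ B ↔ ∀ t ≤ s, valG nE dE nP dP t.unpair.1 t.unpair.2 x ≤ B := by
  unfold apxG
  rw [foldl_max_le]
  simp

lemma valG_initSeg (c s' : ℕ) (ω : Cantor) (s : ℕ)
    (hs : (tgt c (stateG nE dE nP dP c s').1 (stateG nE dE nP dP c s').2).length ≤ s) :
    (ω ∈ cyl (tgt c (stateG nE dE nP dP c s').1 (stateG nE dE nP dP c s').2) ∧
      valG nE dE nP dP c s' (initSeg ω s) =
        2 ^ (c + (stateG nE dE nP dP c s').1 + (stateG nE dE nP dP c s').2)) ∨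
    (ω ∉ cyl (tgt c (stateG nE dE nP dP c s').1 (stateG nE dE nP dP c s').2) ∧
      valG nE dE nP dP c s' (initSeg ω s) = 0) := by
  unfold valG
  rw [take_initSeg ω hs]
  by_cases h : initSeg ω (tgt c (stateG nE dE nP dP c s').1
      (stateG nE dE nP dP c s').2).length =
      tgt c (stateG nE dE nP dP c s').1 (stateG nE dE nP dP c s').2
  · left
    refine ⟨h, ?_⟩
    rw [decide_eq_true h]
    rfl
  · right
    refine ⟨h, ?_⟩
    rw [decide_eq_false h]
    rfl

lemma valG_short (c s' : ℕ) (ω : Cantor) (s : ℕ)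
    (hs : s < (tgt c (stateG nE dE nP dP c s').1 (stateG nE dE nP dP c s').2).length) :
    valG nE dE nP dP c s' (initSeg ω s) = 0 := by
  unfold valG
  rw [decide_eq_false]
  · rfl
  · intro h
    have := congrArg List.length h
    rw [List.length_take, length_initSeg] at this
    omega

lemma valG_le_of_mem (c s' : ℕ) (ω : Cantor) (s : ℕ) :
    (valG nE dE nP dP c s' (initSeg ω s) = 0) ∨
    (ω ∈ cyl (tgt c (stateG nE dE nP dP c s').1 (stateG nE dE nP dP c s').2) ∧
      valG nE dE nP dP c s' (initSeg ω s) =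
        2 ^ (c + (stateG nE dE nP dP c s').1 + (stateG nE dE nP dP c s').2)) := by
  rcases lt_or_ge s (tgt c (stateG nE dE nP dP c s').1
    (stateG nE dE nP dP c s').2).length with h | h
  · left; exact valG_short c s' ω s h
  · rcases valG_initSeg c s' ω s h with h | h
    · right; exact h
    · left; exact h.2

lemma valG_mono (c s' : ℕ) (ω : Cantor) (s : ℕ) :
    valG nE dE nP dP c s' (initSeg ω s) ≤ valG nE dE nP dP c s' (initSeg ω (s + 1)) := by
  rcases lt_or_ge s (tgt c (stateG nE dE nP dP c s').1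
    (stateG nE dE nP dP c s').2).length with h | h
  · rw [valG_short c s' ω s h]; exact Nat.zero_le _
  · rcases valG_initSeg (nE := nE) (dE := dE) (nP := nP) (dP := dP) c s' ω s h with h1 | h1 <;>
    rcases valG_initSeg (nE := nE) (dE := dE) (nP := nP) (dP := dP) c s' ω (s + 1)
      (by omega) with h2 | h2
    · rw [h1.2, h2.2]
    · exact absurd h1.1 h2.1
    · exact absurd h2.1 h1.1
    · rw [h1.2, h2.2]

variable (nE dE nP dP)

/-- the reward function of all games together -/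
noncomputable def rew (ω : Cantor) : ℝ≥0∞ := ⨆ s, (apxG nE dE nP dP s (initSeg ω s) : ℝ≥0∞)

variable {nE dE nP dP}

lemma rew_lsc (hnE : Computable₂ nE) (hdE : Computable₂ dE) (hnP : Computable₂ nP)
    (hdP : Computable₂ dP) : LowerSemicomputable (rew nE dE nP dP) := by
  refine lowerSemicomputable_of_nat (apxG nE dE nP dP) (computable_apxG hnE hdE hnP hdP) ?_
    (fun ω => rfl)
  intro ω s
  rw [apxG_le]
  intro t ht
  refine (valG_mono _ _ ω s).trans ?_
  have := (apxG_le (nE := nE) (dE := dE) (nP := nP) (dP := dP) (s := s + 1)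
    (x := initSeg ω (s + 1)) (B := apxG nE dE nP dP (s + 1) (initSeg ω (s + 1)))).1 le_rfl
  exact this t (by omega)

/-- the reward collected on the target cylinder of a visited state -/
lemma le_rew (c r j : ℕ) (h : (r, j) ∈ Set.range (stateG nE dE nP dP c)) (ω : Cantor)
    (hω : ω ∈ cyl (tgt c r j)) : (2 : ℝ≥0∞) ^ (c + r + j) ≤ rew nE dE nP dP ω := by
  obtain ⟨s', hs'⟩ := h
  set s := max (Nat.pair c s') (tgt c r j).length with hs
  have h1 : valG nE dE nP dP c s' (initSeg ω s) = 2 ^ (c + r + j) := by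
    have h2 := valG_initSeg (nE := nE) (dE := dE) (nP := nP) (dP := dP) c s' ω s
      (by rw [hs']; exact le_max_right _ _)
    rw [hs'] at h2
    rcases h2 with h2 | h2
    · exact h2.2
    · exact absurd hω h2.1
  have h3 : 2 ^ (c + r + j) ≤ apxG nE dE nP dP s (initSeg ω s) := by
    have := (apxG_le (nE := nE) (dE := dE) (nP := nP) (dP := dP) (s := s)
      (x := initSeg ω s) (B := apxG nE dE nP dP s (initSeg ω s))).1 le_rfl
    have h4 := this (Nat.pair c s') (le_max_left _ _)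
    rw [Nat.unpair_pair] at h4
    simp only at h4
    rw [h1] at h4
    exact h4
  calc (2 : ℝ≥0∞) ^ (c + r + j) = ((2 ^ (c + r + j) : ℕ) : ℝ≥0∞) := by push_cast; rfl
    _ ≤ (apxG nE dE nP dP s (initSeg ω s) : ℝ≥0∞) := by exact_mod_cast h3
    _ ≤ rew nE dE nP dP ω := le_iSup (fun s => (apxG nE dE nP dP s (initSeg ω s) : ℝ≥0∞)) s

variable (nE dE nP dP)

/-- the summand of the bound for the reward function -/
noncomputable def summand (c r j : ℕ) (ω : Cantor) : ℝ≥0∞ :=
  (Set.range (stateG nE dE nP dP c)).indicator (fun _ => (2 : ℝ≥0∞) ^ (c + r + j)) (r, j) *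
    (cyl (tgt c r j)).indicator (fun _ => 1) ω

variable {nE dE nP dP}

lemma rew_le_tsum (ω : Cantor) :
    rew nE dE nP dP ω ≤ ∑' c, ∑' r, ∑' j, summand nE dE nP dP c r j ω := by
  unfold rew
  refine iSup_le (fun s => ?_)
  have key : ∃ t ≤ s, apxG nE dE nP dP s (initSeg ω s) ≤
      valG nE dE nP dP t.unpair.1 t.unpair.2 (initSeg ω s) := by
    by_contra hcon
    push Not at hcon
    have hpos : 0 < apxG nE dE nP dP s (initSeg ω s) := lt_of_le_of_lt (Nat.zero_le _)
      (hcon 0 (Nat.zero_le _))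
    have : apxG nE dE nP dP s (initSeg ω s) ≤ apxG nE dE nP dP s (initSeg ω s) - 1 := by
      rw [apxG_le]
      intro t ht
      have := hcon t ht
      omega
    omega
  obtain ⟨t, _, ht⟩ := key
  have h1 : (apxG nE dE nP dP s (initSeg ω s) : ℝ≥0∞) ≤
      (valG nE dE nP dP t.unpair.1 t.unpair.2 (initSeg ω s) : ℝ≥0∞) := by exact_mod_cast ht
  refine h1.trans ?_
  set c := t.unpair.1
  set s' := t.unpair.2
  set q := stateG nE dE nP dP c s' with hq
  rcases valG_le_of_mem (nE := nE) (dE := dE) (nP := nP) (dP := dP) c s' ω s with h | h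
  · rw [h]; simp
  · rw [h.2]
    calc ((2 ^ (c + q.1 + q.2) : ℕ) : ℝ≥0∞) = summand nE dE nP dP c q.1 q.2 ω := by
          unfold summand
          rw [Set.indicator_of_mem (show (q.1, q.2) ∈ Set.range (stateG nE dE nP dP c) from
            ⟨s', rfl⟩), Set.indicator_of_mem h.1]
          push_cast
          ring
      _ ≤ ∑' j, summand nE dE nP dP c q.1 j ω := ENNReal.le_tsum q.2
      _ ≤ ∑' r, ∑' j, summand nE dE nP dP c r j ω :=
          ENNReal.le_tsum (f := fun r => ∑' j, summand nE dE nP dP c r j ω) q.1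
      _ ≤ _ := ENNReal.le_tsum (f := fun c => ∑' r, ∑' j, summand nE dE nP dP c r j ω) c

lemma measurable_summand (c r j : ℕ) : Measurable (summand nE dE nP dP c r j) := by
  unfold summand
  exact (measurable_const.indicator (measurableSet_cyl _)).const_mul _

lemma lintegral_summand (c r j : ℕ) :
    ∫⁻ ω, summand nE dE nP dP c r j ω ∂unif = (1 / 2) ^ c * wt nE dE nP dP c r j := by
  unfold summand wt
  rw [lintegral_const_mul _ (measurable_const.indicator (measurableSet_cyl _)),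
    lintegral_indicator_const (measurableSet_cyl _), one_mul]
  by_cases h : (r, j) ∈ Set.range (stateG nE dE nP dP c)
  · rw [Set.indicator_of_mem h, Set.indicator_of_mem h]
    unfold tgt
    rw [unif_oneHot]
    have e1 : (2 : ℝ≥0∞) ^ c * (1 / 2) ^ c = 1 := by
      rw [← mul_pow, ENNReal.mul_div_cancel (by norm_num) (by norm_num), one_pow]
    have e2 : (2 : ℝ≥0∞) ^ r * (1 / 2) ^ r = 1 := by
      rw [← mul_pow, ENNReal.mul_div_cancel (by norm_num) (by norm_num), one_pow]
    rw [pow_add, pow_add, pow_add (1 / 2 : ℝ≥0∞), pow_add (1 / 2 : ℝ≥0∞), two_mul,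
      pow_add (1 / 2 : ℝ≥0∞)]
    calc (2 : ℝ≥0∞) ^ c * 2 ^ r * 2 ^ j * ((1 / 2) ^ kk c * (1 / 2) ^ r * ((1 / 2) ^ c * (1 / 2) ^ c))
        = (2 ^ c * (1 / 2) ^ c) * (2 ^ r * (1 / 2) ^ r) * ((1 / 2) ^ c * (2 ^ j * (1 / 2) ^ kk c)) := by
          ring
      _ = _ := by rw [e1, e2, one_mul, one_mul]
  · rw [Set.indicator_of_notMem h, Set.indicator_of_notMem h]
    simp

lemma rew_isExpectationTest (hnE : Computable₂ nE) (hdE : Computable₂ dE) (hnP : Computable₂ nP)
    (hdP : Computable₂ dP) (hE : Approx nE dE tE) (hEi : ∫⁻ ω, tE ω ∂unif < ∞)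
    (hP : Approx nP dP tP)
    (hPb : ∀ c : ℝ≥0, 0 < c → unif {ω : Cantor | (c : ℝ≥0∞) ≤ tP ω} ≤ 1 / (c : ℝ≥0∞)) :
    IsExpectationTest (rew nE dE nP dP) := by
  refine ⟨rew_lsc hnE hdE hnP hdP, ?_⟩
  have h1 : ∫⁻ ω, rew nE dE nP dP ω ∂unif ≤
      ∫⁻ ω, ∑' c, ∑' r, ∑' j, summand nE dE nP dP c r j ω ∂unif :=
    lintegral_mono (fun ω => rew_le_tsum ω)
  refine lt_of_le_of_lt h1 ?_
  rw [lintegral_tsum (fun c => ?_)]
  swap
  · refine (Measurable.tsum (fun r => Measurable.tsum (fun j => ?_))).aemeasurable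
    exact measurable_summand c r j
  have h2 : ∀ c, ∫⁻ ω, ∑' r, ∑' j, summand nE dE nP dP c r j ω ∂unif =
      (1 / 2) ^ c * ∑' r, ∑' j, wt nE dE nP dP c r j := by
    intro c
    rw [lintegral_tsum (fun r => ?_)]
    · rw [← ENNReal.tsum_mul_left]
      congr 1
      ext r
      rw [lintegral_tsum (fun j => (measurable_summand c r j).aemeasurable)]
      rw [← ENNReal.tsum_mul_left]
      congr 1
      ext j
      exact lintegral_summand c r j
    · exact (Measurable.tsum (fun j => measurable_summand c r j)).aemeasurable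
  have h3 : ∑' c, ∫⁻ ω, ∑' r, ∑' j, summand nE dE nP dP c r j ω ∂unif ≤
      ∑' c : ℕ, (1 / 2 : ℝ≥0∞) ^ c * (4 * ∫⁻ ω, tE ω ∂unif + 1) := by
    refine ENNReal.tsum_le_tsum (fun c => ?_)
    rw [h2 c]
    gcongr
    exact tsum_tsum_wt_le hE hP hPb c
  refine lt_of_le_of_lt h3 ?_
  rw [ENNReal.tsum_mul_right, ENNReal.tsum_geometric]
  have h4 : (1 - 1 / 2 : ℝ≥0∞)⁻¹ < ∞ := by
    rw [ENNReal.inv_lt_top]
    simp
  refine ENNReal.mul_lt_top h4 ?_
  exact ENNReal.add_lt_top.2 ⟨ENNReal.mul_lt_top (by simp) hEi, by simp⟩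

end Pool.Agent.Rand
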